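import Pool.Agent.H15.Defect.Arc

/-!
# The generic fibre of a smoothing is reduced over every field
-/

open TensorProduct Module PowerSeries

namespace Pool.Agent.H15.CX

open Pool.Agent.H12.Defect Pool.Agent.H15.Defect

universe u

variable {k : Type u} [Field k] {𝒜 : Type u} [CommRing 𝒜] [Algebra (PowerSeries k) 𝒜]

theorem formallyUnramified_laurent [Module.Finite (PowerSeries k) 𝒜]
    (hred : IsReduced (Om k ⊗[PowerSeries k] 𝒜)) :
    Algebra.FormallyUnramified (LaurentSeries k) (LaurentSeries k ⊗[PowerSeries k] 𝒜) := by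
  obtain ⟨T, _, ⟨e⟩⟩ := exists_algEquiv_pi (Om k) (Om k ⊗[PowerSeries k] 𝒜)
  have h1 : Algebra.FormallyUnramified (Om k) (T → Om k) :=
    (Algebra.FormallyUnramified.pi_iff (R := Om k) (f := fun _ : T => Om k)).mpr
      (fun _ => inferInstance)
  have h2 : Algebra.FormallyUnramified (Om k) (Om k ⊗[PowerSeries k] 𝒜) :=
    Algebra.FormallyUnramified.of_equiv e.symm
  let e2 := Algebra.TensorProduct.cancelBaseChange (PowerSeries k) (LaurentSeries k) (Om k)
    (Om k) 𝒜
  have h3 : Algebra.FormallyUnramified (Om k)
      (Om k ⊗[LaurentSeries k] (LaurentSeries k ⊗[PowerSeries k] 𝒜)) :=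
    Algebra.FormallyUnramified.of_equiv e2.symm
  exact Algebra.FormallyUnramified.of_formallyUnramified_tensorProduct_of_faithfullyFlat (Om k)

/-- The generic fibre of a smoothing is reduced over every extension of the fraction field. -/
theorem isReduced_of_field' [Module.Finite (PowerSeries k) 𝒜]
    (hred : IsReduced (Om k ⊗[PowerSeries k] 𝒜)) (K : Type u) [Field K]
    [Algebra (PowerSeries k) K] (hinj : Function.Injective (algebraMap (PowerSeries k) K)) :
    IsReduced (K ⊗[PowerSeries k] 𝒜) := by
  let f : LaurentSeries k →+* K := IsFractionRing.lift hinj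
  let _ : Algebra (LaurentSeries k) K := f.toAlgebra
  have : IsScalarTower (PowerSeries k) (LaurentSeries k) K :=
    IsScalarTower.of_algebraMap_eq fun r => (IsFractionRing.lift_algebraMap hinj r).symm
  have h1 := formallyUnramified_laurent hred
  let e := Algebra.TensorProduct.cancelBaseChange (PowerSeries k) (LaurentSeries k) K K 𝒜
  have h2 : Algebra.FormallyUnramified K
      (K ⊗[LaurentSeries k] (LaurentSeries k ⊗[PowerSeries k] 𝒜)) := inferInstance
  have h3 : IsReduced (K ⊗[LaurentSeries k] (LaurentSeries k ⊗[PowerSeries k] 𝒜)) :=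
    Algebra.FormallyUnramified.isReduced_of_field K
      (K ⊗[LaurentSeries k] (LaurentSeries k ⊗[PowerSeries k] 𝒜))
  exact isReduced_of_injective e.symm e.symm.injective

end Pool.Agent.H15.CX
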