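import Pool.Agent.H15.CX.Idz

/-!
# Splitting of modules in idealizations
-/

open TensorProduct Module

namespace Pool.Agent.H15.CX

open Pool.Agent.H15.Defect

universe u

/-- Degenerations along dual numbers. -/
def T_DUAL (k : Type u) [Field k] : Prop :=
  ∀ (E G : Type u) [CommRing E] [Algebra k E] [CommRing G] [Algebra k G] (N : ℕ), Dle k E N →
    ∀ (S : Subalgebra k (DualNumber E)) (h : (DualNumber.eps : DualNumber E) ∈ S)
      (ψ : S →ₐ[k] G), Function.Surjective ψ → ψ ⟨DualNumber.eps, h⟩ = 0 → Dle k G N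

section split

variable {k P Y Y₁ Y₂ : Type u} [Field k] [CommRing P] [Algebra k P] [CommRing Y] [Algebra k Y]
  [CommRing Y₁] [Algebra k Y₁] [CommRing Y₂] [Algebra k Y₂]

/-- The data of a splitting: `Y₁ ⊆ Y` is a submodule with quotient `Y₂`. -/
structure SplitData (q : P →ₐ[k] Y) (q₁ : P →ₐ[k] Y₁) (q₂ : P →ₐ[k] Y₂) where
  /-- the inclusion -/
  j : Y₁ →ₗ[k] Y
  /-- the projection -/
  g : Y →ₗ[k] Y₂
  inj : Function.Injective j
  surj : Function.Surjective g
  comp : ∀ y, g (j y) = 0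
  hj : ∀ p y, j (q₁ p * y) = q p * j y
  hg : ∀ p y, g (q p * y) = q₂ p * g y

theorem SplitData.dle (HD : T_DUAL k) {q : P →ₐ[k] Y} {q₁ : P →ₐ[k] Y₁} {q₂ : P →ₐ[k] Y₂}
    (D : SplitData q q₁ q₂) {N : ℕ} (h : Dle k (Idz q) N) : Dle k (Idz (q₁.prod q₂)) N := by
  obtain ⟨l, hl⟩ := D.j.exists_leftInverse_of_injective (LinearMap.ker_eq_bot.mpr D.inj)
  have hlj : ∀ y, l (D.j y) = y := fun y => LinearMap.congr_fun hl y
  let S : Subalgebra k (DualNumber (Idz q)) :=
    { carrier := {z | ∃ y, D.j y = z.fst.2}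
      mul_mem' := by
        rintro z w ⟨y, hy⟩ ⟨y', hy'⟩
        refine ⟨q₁ z.fst.1 * y' + q₁ w.fst.1 * y, ?_⟩
        rw [map_add, D.hj, D.hj, hy, hy', TrivSqZeroExt.fst_mul, Idz.mul_snd]
      add_mem' := by
        rintro z w ⟨y, hy⟩ ⟨y', hy'⟩
        exact ⟨y + y', by rw [map_add, hy, hy']; rfl⟩
      algebraMap_mem' := by
        intro r
        refine ⟨0, ?_⟩
        rw [map_zero, Algebra.algebraMap_eq_smul_one, TrivSqZeroExt.fst_smul,
          TrivSqZeroExt.fst_one, Idz.smul_snd, Idz.one_snd, smul_zero] }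
  have heps : (DualNumber.eps : DualNumber (Idz q)) ∈ S := by
    refine ⟨0, ?_⟩
    rw [map_zero, DualNumber.fst_eps]
    rfl
  let ψ0 : DualNumber (Idz q) →ₗ[k] Idz (q₁.prod q₂) :=
    { toFun := fun z => ((z.fst.1, (l z.fst.2, D.g z.snd.2)) : P × (Y₁ × Y₂))
      map_add' := by
        intro z w
        apply Idz.ext'
        · rfl
        · apply Prod.ext
          · exact map_add l _ _
          · exact map_add D.g _ _
      map_smul' := by
        intro c z
        apply Idz.ext'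
        · rfl
        · apply Prod.ext
          · exact map_smul l _ _
          · exact map_smul D.g _ _ }
  have h1 : ∀ z, (ψ0 z).1 = z.fst.1 := fun _ => rfl
  have h2 : ∀ z, (ψ0 z).2 = (l z.fst.2, D.g z.snd.2) := fun _ => rfl
  let ψ : S →ₐ[k] Idz (q₁.prod q₂) := AlgHom.ofLinearMap (ψ0.comp S.val.toLinearMap)
    (by
      apply Idz.ext'
      · rfl
      · show (l 0, D.g 0) = 0
        rw [map_zero, map_zero]; rfl)
    (by
      rintro ⟨z, y, hy⟩ ⟨w, y', hy'⟩
      show ψ0 (z * w) = ψ0 z * ψ0 w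
      have hz : l z.fst.2 = y := by rw [← hy, hlj]
      have hw : l w.fst.2 = y' := by rw [← hy', hlj]
      have hgz : D.g z.fst.2 = 0 := by rw [← hy, D.comp]
      have hgw : D.g w.fst.2 = 0 := by rw [← hy', D.comp]
      apply Idz.ext'
      · rfl
      · rw [Idz.mul_snd, h2, h2, h2, h1, h1]
        apply Prod.ext
        · show l (z * w).fst.2 = q₁ z.fst.1 * l w.fst.2 + q₁ w.fst.1 * l z.fst.2
          rw [hz, hw, TrivSqZeroExt.fst_mul, Idz.mul_snd, ← hy, ← hy', ← D.hj, ← D.hj, ← map_add,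
            hlj]
        · show D.g (z * w).snd.2 = q₂ z.fst.1 * D.g w.snd.2 + q₂ w.fst.1 * D.g z.snd.2
          have h3 : (z * w).snd = z.fst * w.snd + w.fst * z.snd := by
            rw [TrivSqZeroExt.snd_mul]
            simp [mul_comm]
          rw [h3, Idz.add_snd, Idz.mul_snd, Idz.mul_snd, map_add, map_add, map_add, D.hg, D.hg,
            D.hg, D.hg, hgz, hgw]
          ring)
  have hψ : ∀ z : S, ψ z = ψ0 z.1 := fun _ => rfl
  refine HD _ _ N h S heps ψ ?_ ?_
  · intro a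
    obtain ⟨y, hy⟩ := D.surj a.2.2
    let x : Idz q := ((a.1, D.j a.2.1) : P × Y)
    let x' : Idz q := ((0, y) : P × Y)
    let z : DualNumber (Idz q) := TrivSqZeroExt.inl x + TrivSqZeroExt.inr x'
    have hz1 : z.fst = x := by
      rw [TrivSqZeroExt.fst_add, TrivSqZeroExt.fst_inl, TrivSqZeroExt.fst_inr, add_zero]
    have hz2 : z.snd = x' := by
      rw [TrivSqZeroExt.snd_add, TrivSqZeroExt.snd_inl, TrivSqZeroExt.snd_inr, zero_add]
    refine ⟨⟨z, a.2.1, by rw [hz1]⟩, ?_⟩
    rw [hψ]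
    show ψ0 z = a
    apply Idz.ext'
    · rw [h1, hz1]
    · rw [h2, hz1, hz2]
      apply Prod.ext
      · exact hlj _
      · exact hy
  · rw [hψ]
    apply Idz.ext'
    · rfl
    · rw [h2, DualNumber.fst_eps, DualNumber.snd_eps]
      show (l 0, D.g 0) = 0
      rw [map_zero, map_zero]
      rfl

end split

end Pool.Agent.H15.CX
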