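import Pool.Agent.H15.Defect.Basic

/-!
# Idempotents of the special fibre of a smoothing lift
-/

open TensorProduct Module PowerSeries

namespace Pool.Agent.H15.CX

open Pool.Agent.H12.Defect Pool.Agent.H15.Defect

universe u

section complete

theorem isAdicComplete_of_finite {R : Type u} [CommRing R] [IsNoetherianRing R] (I : Ideal R)
    [IsAdicComplete I R] (M : Type u) [AddCommGroup M] [Module R M] [Module.Finite R M] :
    IsAdicComplete I M := by
  rw [← AdicCompletion.of_bijective_iff]
  have h1 := AdicCompletion.ofTensorProduct_bijective_of_finite_of_isNoetherian I M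
  let e1 : M ≃ₗ[R] R ⊗[R] M := (TensorProduct.lid R M).symm
  let e2 : R ⊗[R] M ≃ₗ[R] AdicCompletion I R ⊗[R] M :=
    TensorProduct.congr (LinearEquiv.ofBijective (AdicCompletion.of I R)
      (AdicCompletion.of_bijective I R)) (LinearEquiv.refl R M)
  have h2 : ⇑(AdicCompletion.of I M) = AdicCompletion.ofTensorProduct I M ∘ (e1.trans e2) := by
    funext m
    show _ = AdicCompletion.ofTensorProduct I M (e2 (e1 m))
    have : e2 (e1 m) = (AdicCompletion.of I R 1) ⊗ₜ m := by
      simp [e1, e2]
    rw [this, AdicCompletion.ofTensorProduct_tmul]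
    ext n
    simp only [AdicCompletion.smul_eval, AdicCompletion.of_apply, Submodule.mkQ_apply]
    exact (one_smul _ _).symm
  rw [h2]
  exact h1.comp (e1.trans e2).bijective

end complete

section idempotent

variable {k : Type u} [Field k] {𝒜 : Type u} [CommRing 𝒜] [Algebra (PowerSeries k) 𝒜] {B : Type u}
  [CommRing B] [Algebra k B] {π : 𝒜 →+* B}

/-- Idempotents of the special fibre lift. -/
theorem exists_idempotent (h : IsModel k π) {e : B} (he : e * e = e) :
    ∃ E : 𝒜, E * E = E ∧ π E = e := by
  have := h.finite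
  have hc : IsAdicComplete (Ideal.span {(X : PowerSeries k)}) 𝒜 :=
    isAdicComplete_of_finite _ _
  have hc' : IsAdicComplete (RingHom.ker π) 𝒜 := by
    have := (IsAdicComplete.map_algebraMap_iff (S := 𝒜)
      (I := Ideal.span {(X : PowerSeries k)}) (M := 𝒜)).mpr hc
    rwa [Ideal.map_span, Set.image_singleton, ← h.ker] at this
  obtain ⟨a₀, ha₀⟩ := h.surj e
  let f : Polynomial 𝒜 := Polynomial.X ^ 2 - Polynomial.X
  have hf : f.Monic := Polynomial.monic_X_pow_sub (n := 2)
    (lt_of_le_of_lt Polynomial.degree_X_le (by norm_num))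
  have h1 : f.eval a₀ ∈ RingHom.ker π := by
    rw [RingHom.mem_ker]
    simp [f, ha₀, pow_two, he]
  have h2 : IsUnit (Ideal.Quotient.mk (RingHom.ker π) (f.derivative.eval a₀)) := by
    apply IsUnit.of_mul_eq_one (Ideal.Quotient.mk (RingHom.ker π) (f.derivative.eval a₀))
    rw [← map_mul, ← map_one (Ideal.Quotient.mk (RingHom.ker π)), Ideal.Quotient.eq,
      RingHom.mem_ker]
    have h3 : f.derivative.eval a₀ = 2 * a₀ - 1 := by
      simp [f]
      ring
    rw [h3]
    simp only [map_sub, map_mul, map_one, map_ofNat, ha₀]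
    linear_combination 4 * he
  obtain ⟨a, ha1, ha2⟩ := HenselianRing.is_henselian (I := RingHom.ker π) f hf a₀ h1 h2
  refine ⟨a, ?_, ?_⟩
  · have : f.eval a = 0 := ha1
    simp only [f, Polynomial.eval_sub, Polynomial.eval_pow, Polynomial.eval_X] at this
    linear_combination this
  · rw [RingHom.mem_ker, map_sub, sub_eq_zero] at ha2
    rw [ha2, ha₀]

end idempotent

end Pool.Agent.H15.CX
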