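import Pool.Agent.H15.ER.Univ
import Pool.Agent.H15.CX.Idem

/-!
# Local covers of local algebras
-/

open TensorProduct Module PowerSeries

namespace Pool.Agent.H15.CX

open Pool.Agent.H12.Defect Pool.Agent.H15.Defect Pool.Agent.H15.ER Pool.Agent.H2.WG
open Pool.Agent.H14.RF hiding tr

universe u

section fst

variable {k : Type u} [Field k] {B₁ B₂ : Type u} [CommRing B₁] [Algebra k B₁] [CommRing B₂]
  [Algebra k B₂]

/-- A factor of a smoothable algebra is smoothable. -/
theorem isSmoothable_fst (h : IsSmoothable k (B₁ × B₂)) : IsSmoothable k B₁ := by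
  obtain ⟨𝒜, i1, i2, π, hm⟩ := isSmoothable_iff.mp h
  have hf := hm.finite
  have hfree := hm.free
  obtain ⟨E, hE, hπE⟩ := exists_idempotent hm (e := ((0, 1) : B₁ × B₂)) (by simp)
  have hE1 : E * (1 - E) = 0 := by rw [mul_sub, mul_one, hE, sub_self]
  let I : Ideal 𝒜 := Ideal.span {E}
  let mk : 𝒜 →ₐ[PowerSeries k] (𝒜 ⧸ I) := Ideal.Quotient.mkₐ (PowerSeries k) I
  have hmk : Function.Surjective mk := Ideal.Quotient.mk_surjective
  have hmkE : mk E = 0 := by
    show Ideal.Quotient.mk I E = 0
    rw [Ideal.Quotient.eq_zero_iff_mem]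
    exact Ideal.mem_span_singleton_self E
  let ρ : 𝒜 →+* B₁ := (RingHom.fst B₁ B₂).comp π
  have hρ : ∀ a, ρ a = (π a).1 := fun _ => rfl
  have hρI : ∀ a ∈ I, ρ a = 0 := by
    intro a ha
    obtain ⟨c, rfl⟩ := Ideal.mem_span_singleton'.mp ha
    rw [hρ, map_mul, hπE]
    simp
  let π₁ : (𝒜 ⧸ I) →+* B₁ := Ideal.Quotient.lift I ρ hρI
  have hπ₁ : ∀ a, π₁ (mk a) = (π a).1 := fun _ => rfl
  refine isSmoothable_iff.mpr ⟨𝒜 ⧸ I, inferInstance, inferInstance, π₁, ?_, ?_, ?_, ?_, ?_, ?_⟩
  · exact Module.Finite.of_surjective mk.toLinearMap hmk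
  · have hle : ∀ a ∈ I, (LinearMap.mulLeft (PowerSeries k) (1 - E)) a = 0 := by
      intro a ha
      obtain ⟨c, rfl⟩ := Ideal.mem_span_singleton'.mp ha
      rw [LinearMap.mulLeft_apply]
      linear_combination c * hE1
    let f : (𝒜 ⧸ I) →ₗ[PowerSeries k] 𝒜 :=
      (Submodule.liftQ (I.restrictScalars (PowerSeries k))
        (LinearMap.mulLeft (PowerSeries k) (1 - E)) (fun a ha => LinearMap.mem_ker.mpr (hle a ha)))
    have hfmk : ∀ a, f (mk a) = (1 - E) * a := fun a => rfl
    refine Module.Flat.of_retract f mk.toLinearMap ?_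
    apply LinearMap.ext
    intro x
    obtain ⟨a, rfl⟩ := hmk x
    show mk (f (mk a)) = mk a
    rw [hfmk, map_mul, map_sub, map_one, hmkE, sub_zero, one_mul]
  · have hE2 : IsIdempotentElem E := hE
    let e0 := AlgEquiv.prodQuotientOfIsIdempotentElem (PowerSeries k) hE2 hE2.one_sub (by ring) hE1
    have hred := hm.reduced
    let e1 : Om k ⊗[PowerSeries k] 𝒜 ≃ₐ[PowerSeries k]
        Om k ⊗[PowerSeries k] ((𝒜 ⧸ I) × (𝒜 ⧸ Ideal.span {1 - E})) :=
      Algebra.TensorProduct.congr AlgEquiv.refl e0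
    let e2 := Algebra.TensorProduct.prodRight (PowerSeries k) (Om k) (Om k) (𝒜 ⧸ I)
      (𝒜 ⧸ Ideal.span {1 - E})
    have h1 : IsReduced (Om k ⊗[PowerSeries k] ((𝒜 ⧸ I) × (𝒜 ⧸ Ideal.span {1 - E}))) :=
      isReduced_of_injective e1.symm e1.symm.injective
    have h2 : IsReduced ((Om k ⊗[PowerSeries k] (𝒜 ⧸ I)) ×
        (Om k ⊗[PowerSeries k] (𝒜 ⧸ Ideal.span {1 - E}))) :=
      isReduced_of_injective e2.symm e2.symm.injective
    refine ⟨fun x hx => ?_⟩
    obtain ⟨n, hn⟩ := hx
    have h3 : IsNilpotent ((x, 0) : (Om k ⊗[PowerSeries k] (𝒜 ⧸ I)) ×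
        (Om k ⊗[PowerSeries k] (𝒜 ⧸ Ideal.span {1 - E}))) := by
      refine ⟨n + 1, ?_⟩
      rw [Prod.pow_mk, pow_succ, hn, zero_mul, zero_pow (by omega)]
      rfl
    exact congrArg Prod.fst (h3.eq_zero)
  · intro b
    obtain ⟨a, ha⟩ := hm.surj (b, 0)
    exact ⟨mk a, by rw [hπ₁, ha]⟩
  · apply le_antisymm
    · intro x hx
      obtain ⟨a, rfl⟩ := hmk x
      rw [RingHom.mem_ker, hπ₁] at hx
      have h1 : a - E * a ∈ RingHom.ker π := by
        rw [RingHom.mem_ker, map_sub, map_mul, hπE]
        apply Prod.ext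
        · simp [hx]
        · simp
      rw [hm.ker, Ideal.mem_span_singleton'] at h1
      obtain ⟨c, hc⟩ := h1
      rw [Ideal.mem_span_singleton']
      refine ⟨mk c, ?_⟩
      have h2 := congrArg mk hc
      rw [map_mul, map_sub, map_mul, hmkE, zero_mul, sub_zero, AlgHom.commutes] at h2
      exact h2
    · rw [Ideal.span_le, Set.singleton_subset_iff]
      show π₁ (mk (algebraMap (PowerSeries k) 𝒜 X)) = 0
      rw [hπ₁, hm.map_X]
      rfl
  · intro r
    show π₁ (mk (algebraMap (PowerSeries k) 𝒜 (C r))) = algebraMap k B₁ r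
    rw [hπ₁, hm.alg]
    rfl

theorem isSmoothable_snd (h : IsSmoothable k (B₁ × B₂)) : IsSmoothable k B₂ :=
  isSmoothable_fst (IsSmoothable.of_equiv (AlgEquiv.ofAlgHom
    ((AlgHom.snd k B₁ B₂).prod (AlgHom.fst k B₁ B₂))
    ((AlgHom.snd k B₂ B₁).prod (AlgHom.fst k B₂ B₁)) rfl rfl) h)

end fst

section cover

variable {k : Type u} [Field k]

/-- Every finite algebra over an algebraically closed field has a smoothable cover. -/
theorem exists_dle [IsAlgClosed k] (A : Type u) [CommRing A] [Algebra k A] [Module.Finite k A] :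
    ∃ N, Dle k A N := by
  rcases subsingleton_or_nontrivial A with h | h
  · exact ⟨0, dle_subsingleton⟩
  · obtain ⟨f, hf⟩ := exists_surjection (k := k) (finrank k A) (finrank k A) A rfl le_rfl
    exact ⟨_, ((((dle_trunc k (finrank k A)).pow (finrank k A)).pi (finrank k A)).of_surjective
      f hf)⟩

/-- A local algebra has a local smoothable cover. -/
theorem exists_local_cover {A : Type u} [CommRing A] [Algebra k A]
    (α : A →ₐ[k] k) {c : ℕ} (hα : RingHom.ker α ^ c = ⊥) :
    ∀ (N : ℕ) (B : Type u) [CommRing B] [Algebra k B], IsSmoothable k B → finrank k B = N →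
      ∀ π : B →ₐ[k] A, Function.Surjective π →
      ∃ (B' : Type u) (_ : CommRing B') (_ : Algebra k B') (π' : B' →ₐ[k] A) (c' : ℕ),
        IsSmoothable k B' ∧ Function.Surjective π' ∧ RingHom.ker (α.comp π') ^ c' = ⊥ := by
  intro N
  induction N using Nat.strong_induction_on with
  | _ N ih =>
    intro B _ _ hB hN π hπ
    have hfB := IsSmoothable.finite hB
    rcases local_or_split (α.comp π) with ⟨c', hc'⟩ |
      ⟨B₁, B₂, _, _, _, _, hf1, hf2, _, _, ⟨E⟩⟩
    · exact ⟨B, inferInstance, inferInstance, π, c', hB, hπ, hc'⟩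
    · have hloc := isLocalRing_of_point α hα
      have hB' : IsSmoothable k (B₁ × B₂) := IsSmoothable.of_equiv E hB
      have hfr : N = finrank k B₁ + finrank k B₂ := by
        rw [← hN, ← Module.finrank_prod]
        exact LinearEquiv.finrank_eq E.toLinearEquiv
      have hp1 := Module.finrank_pos (R := k) (M := B₁)
      have hp2 := Module.finrank_pos (R := k) (M := B₂)
      let p : B₁ × B₂ →ₐ[k] A := π.comp (E.symm : B₁ × B₂ →ₐ[k] B)
      have hp : Function.Surjective p := hπ.comp E.symm.surjective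
      have hp11 : p (1, 1) = 1 := map_one p
      have hp00 : p (0, 0) = 0 := map_zero p
      have hsum : p (1, 0) + p (0, 1) = 1 := by
        rw [← map_add, ← hp11]
        simp
      have hcase : p (1, 0) = 0 ∨ p (0, 1) = 0 := by
        rcases IsLocalRing.isUnit_or_isUnit_of_add_one hsum with h | h
        · right
          have h1 : p (1, 0) * p (0, 1) = 0 := by
            rw [← map_mul, ← hp00]
            simp
          exact (IsUnit.mul_right_eq_zero h).mp h1
        · left
          have h1 : p (1, 0) * p (0, 1) = 0 := by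
            rw [← map_mul, ← hp00]
            simp
          exact (IsUnit.mul_left_eq_zero h).mp h1
      rcases hcase with h0 | h0
      · have h1 : ∀ b₁ b₂, p (b₁, b₂) = p (0, b₂) := by
          intro b₁ b₂
          have h2 : ((b₁, b₂) : B₁ × B₂) = (b₁, 0) * (1, 0) + (0, b₂) := by simp
          rw [h2, map_add, map_mul, h0, mul_zero, zero_add]
        let p2 : B₂ →ₐ[k] A := AlgHom.ofLinearMap (p.toLinearMap.comp (LinearMap.inr k B₁ B₂))
          (by
            show p (0, 1) = 1
            rw [← h1 1 1]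
            exact map_one p)
          (by
            intro x y
            show p (0, x * y) = p (0, x) * p (0, y)
            rw [← map_mul]
            simp)
        refine ih (finrank k B₂) (by omega) B₂ (isSmoothable_snd hB') rfl p2 ?_
        intro a
        obtain ⟨⟨b₁, b₂⟩, hb⟩ := hp a
        exact ⟨b₂, by rw [← hb, h1]; rfl⟩
      · have h1 : ∀ b₁ b₂, p (b₁, b₂) = p (b₁, 0) := by
          intro b₁ b₂
          have h2 : ((b₁, b₂) : B₁ × B₂) = (0, b₂) * (0, 1) + (b₁, 0) := by simp
          rw [h2, map_add, map_mul, h0, mul_zero, zero_add]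
        let p2 : B₁ →ₐ[k] A := AlgHom.ofLinearMap (p.toLinearMap.comp (LinearMap.inl k B₁ B₂))
          (by
            show p (1, 0) = 1
            rw [← h1 1 1]
            exact map_one p)
          (by
            intro x y
            show p (x * y, 0) = p (x, 0) * p (y, 0)
            rw [← map_mul]
            simp)
        refine ih (finrank k B₁) (by omega) B₁ (isSmoothable_fst hB') rfl p2 ?_
        intro a
        obtain ⟨⟨b₁, b₂⟩, hb⟩ := hp a
        exact ⟨b₁, by rw [← hb, h1]; rfl⟩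

end cover

end Pool.Agent.H15.CX
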