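import Pool.Agent.H15.CX.GeomRed
import Pool.Agent.H15.CX.Split

/-!
# Degenerations along dual numbers through a ramified smoothing
-/

open TensorProduct Module PowerSeries

namespace Pool.Agent.H15.CX

open Pool.Agent.H12.Defect Pool.Agent.H15.Defect

universe u

section ram

variable (k : Type u) [Field k]

/-- The ring of power series as an algebra over itself by `X ↦ X ^ 2`. -/
def Ram : Type u := PowerSeries k

noncomputable instance : CommRing (Ram k) := inferInstanceAs (CommRing (PowerSeries k))

noncomputable instance : Algebra (PowerSeries k) (Ram k) :=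
  RingHom.toAlgebra (S := Ram k) (expand 2 two_ne_zero : PowerSeries k →ₐ[k] PowerSeries k).toRingHom

/-- The algebraic closure as an algebra over the ramified ring. -/
def OmR : Type u := Om k

noncomputable instance : Field (OmR k) := inferInstanceAs (Field (Om k))

noncomputable instance : Algebra (Ram k) (OmR k) := inferInstanceAs (Algebra (PowerSeries k) (Om k))

noncomputable instance : Algebra (PowerSeries k) (OmR k) :=
  ((algebraMap (Ram k) (OmR k)).comp (algebraMap (PowerSeries k) (Ram k))).toAlgebra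

instance : IsScalarTower (PowerSeries k) (Ram k) (OmR k) :=
  IsScalarTower.of_algebraMap_eq fun _ => rfl

theorem algebraMap_omR_injective : Function.Injective (algebraMap (PowerSeries k) (OmR k)) := by
  have h1 : Function.Injective (algebraMap (Ram k) (OmR k)) := algebraMap_om_injective (k := k)
  have h2 : Function.Injective (algebraMap (PowerSeries k) (Ram k)) := by
    intro f g hfg
    have h3 : expand 2 two_ne_zero f = expand 2 two_ne_zero g := hfg
    ext n
    have := congrArg (coeff (2 * n)) h3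
    rwa [coeff_expand_mul, coeff_expand_mul] at this
  exact h1.comp h2

variable (𝒜 : Type u) [CommRing 𝒜] [Algebra (PowerSeries k) 𝒜]

/-- The ramified base change of a family over `k⟦X⟧`. -/
def Rm : Type u := Ram k ⊗[PowerSeries k] 𝒜

noncomputable instance : CommRing (Rm k 𝒜) := inferInstanceAs (CommRing (Ram k ⊗[PowerSeries k] 𝒜))

noncomputable instance : Algebra (PowerSeries k) (Rm k 𝒜) :=
  inferInstanceAs (Algebra (Ram k) (Ram k ⊗[PowerSeries k] 𝒜))

instance [Module.Finite (PowerSeries k) 𝒜] : Module.Finite (PowerSeries k) (Rm k 𝒜) :=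
  inferInstanceAs (Module.Finite (Ram k) (Ram k ⊗[PowerSeries k] 𝒜))

instance [Module.Free (PowerSeries k) 𝒜] : Module.Free (PowerSeries k) (Rm k 𝒜) :=
  inferInstanceAs (Module.Free (Ram k) (Ram k ⊗[PowerSeries k] 𝒜))

theorem finrank_rm [Module.Free (PowerSeries k) 𝒜] :
    finrank (PowerSeries k) (Rm k 𝒜) = finrank (PowerSeries k) 𝒜 := by
  have hnt : Nontrivial (Ram k) := inferInstanceAs (Nontrivial (PowerSeries k))
  have h1 : finrank (Ram k) (Ram k ⊗[PowerSeries k] 𝒜) = finrank (PowerSeries k) 𝒜 :=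
    Module.finrank_baseChange
  exact h1

theorem isReduced_rm [Module.Finite (PowerSeries k) 𝒜]
    (hred : IsReduced (Om k ⊗[PowerSeries k] 𝒜)) : IsReduced (Om k ⊗[PowerSeries k] (Rm k 𝒜)) := by
  have h1 : IsReduced (OmR k ⊗[PowerSeries k] 𝒜) :=
    isReduced_of_field' hred (OmR k) (algebraMap_omR_injective k)
  let e := Algebra.TensorProduct.cancelBaseChange (PowerSeries k) (Ram k) (OmR k) (OmR k) 𝒜
  have h2 : IsReduced (OmR k ⊗[Ram k] (Ram k ⊗[PowerSeries k] 𝒜)) :=
    isReduced_of_injective e e.injective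
  exact h2

end ram

section eps

variable {k : Type u} [Field k] (E : Type u) [CommRing E] [Algebra k E]

/-- The homomorphism `k⟦X⟧ → E[ε]` with `X ↦ ε`. -/
noncomputable def toDual : PowerSeries k →+* DualNumber E where
  toFun r := TrivSqZeroExt.inl (algebraMap k E (coeff 0 r)) +
    TrivSqZeroExt.inr (algebraMap k E (coeff 1 r))
  map_one' := by
    have h0 : coeff 0 (1 : PowerSeries k) = 1 := by simp
    have h1 : coeff 1 (1 : PowerSeries k) = 0 := by simp [coeff_one]
    rw [h0, h1, map_one, map_zero, TrivSqZeroExt.inr_zero, add_zero, TrivSqZeroExt.inl_one]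
  map_mul' := by
    intro r s
    have h0 : coeff 0 (r * s) = coeff 0 r * coeff 0 s := by simp
    have h1 : coeff 1 (r * s) = coeff 0 r * coeff 1 s + coeff 0 s * coeff 1 r := by
      rw [coeff_mul, Finset.Nat.antidiagonal_succ]
      simp [mul_comm]
    rw [h0, h1]
    apply TrivSqZeroExt.ext
    · simp
    · simp only [TrivSqZeroExt.snd_mul, TrivSqZeroExt.snd_add, TrivSqZeroExt.snd_inl,
        TrivSqZeroExt.snd_inr, TrivSqZeroExt.fst_add, TrivSqZeroExt.fst_inl,
        TrivSqZeroExt.fst_inr, add_zero, zero_add, map_add, map_mul, smul_eq_mul,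
        MulOpposite.smul_eq_mul_unop, MulOpposite.unop_op]
      ring
  map_zero' := by simp
  map_add' := by
    intro r s
    apply TrivSqZeroExt.ext <;>
      simp only [TrivSqZeroExt.snd_add, TrivSqZeroExt.snd_inl,
        TrivSqZeroExt.snd_inr, TrivSqZeroExt.fst_add, TrivSqZeroExt.fst_inl,
        TrivSqZeroExt.fst_inr, add_zero, zero_add, map_add]

theorem toDual_apply (r : PowerSeries k) : toDual E r =
    TrivSqZeroExt.inl (algebraMap k E (coeff 0 r)) +
      TrivSqZeroExt.inr (algebraMap k E (coeff 1 r)) := rfl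

theorem toDual_X : toDual (k := k) E X = DualNumber.eps := by
  rw [toDual_apply]
  apply TrivSqZeroExt.ext <;> simp

theorem toDual_C (c : k) : toDual (k := k) E (C c) = algebraMap k (DualNumber E) c := by
  rw [toDual_apply]
  apply TrivSqZeroExt.ext
  · simp [TrivSqZeroExt.algebraMap_eq_inl']
  · simp [TrivSqZeroExt.algebraMap_eq_inl', coeff_C]

theorem toDual_expand (r : PowerSeries k) : toDual (k := k) E (expand 2 two_ne_zero r) =
    algebraMap k (DualNumber E) (constantCoeff r) := by
  rw [toDual_apply, coeff_expand, coeff_expand]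
  apply TrivSqZeroExt.ext
  · simp [TrivSqZeroExt.algebraMap_eq_inl']
  · simp [TrivSqZeroExt.algebraMap_eq_inl']

theorem toDual_mem (S : Subalgebra k (DualNumber E)) (h : (DualNumber.eps : DualNumber E) ∈ S)
    (r : PowerSeries k) : toDual E r ∈ S := by
  have h1 : toDual E r = algebraMap k (DualNumber E) (coeff 0 r) +
      (coeff 1 r) • (DualNumber.eps : DualNumber E) := by
    rw [toDual_apply]
    apply TrivSqZeroExt.ext
    · simp [TrivSqZeroExt.algebraMap_eq_inl']
    · simp [Algebra.algebraMap_eq_smul_one]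
  rw [h1]
  exact S.add_mem (S.algebraMap_mem _) (S.smul_mem h _)

end eps

section main

variable {k : Type u} [Field k] {E H 𝒜 : Type u} [CommRing E] [Algebra k E] [CommRing H]
  [Algebra k H] [CommRing 𝒜] [Algebra (PowerSeries k) 𝒜] {π : 𝒜 →+* H}

/-- The reduction of the ramified base change modulo `X ^ 2`. -/
noncomputable def redDual (h : IsModel k π) (p : H →ₐ[k] E) : Rm k 𝒜 →+* DualNumber E :=
  letI : Algebra (PowerSeries k) (DualNumber E) := constAlg k _
  letI f : Ram k →ₐ[PowerSeries k] DualNumber E :=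
    { (toDual E : PowerSeries k →+* DualNumber E) with
      commutes' := by
        intro r
        exact toDual_expand E r }
  letI g : 𝒜 →ₐ[PowerSeries k] DualNumber E :=
    { ((TrivSqZeroExt.inlHom E E : E →+* DualNumber E).comp (p : H →+* E)).comp π with
      commutes' := by
        intro r
        have h1 : π (algebraMap (PowerSeries k) 𝒜 r) = algebraMap k H (constantCoeff r) := by
          have := h.smul r 1
          rwa [Algebra.smul_def, mul_one, map_one, ← Algebra.algebraMap_eq_smul_one] at this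
        show TrivSqZeroExt.inl (p (π (algebraMap (PowerSeries k) 𝒜 r))) =
          algebraMap k (DualNumber E) (constantCoeff r)
        rw [h1, AlgHom.commutes]
        rfl }
  (Algebra.TensorProduct.productMap f g :
    Ram k ⊗[PowerSeries k] 𝒜 →ₐ[PowerSeries k] DualNumber E).toRingHom

theorem redDual_tmul (h : IsModel k π) (p : H →ₐ[k] E) (r : PowerSeries k) (a : 𝒜) :
    redDual h p ((show Ram k from r) ⊗ₜ[PowerSeries k] a : Ram k ⊗[PowerSeries k] 𝒜) =
      toDual E r * TrivSqZeroExt.inl (p (π a)) := rfl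

theorem redDual_algebraMap (h : IsModel k π) (p : H →ₐ[k] E) (r : PowerSeries k) :
    redDual h p (algebraMap (PowerSeries k) (Rm k 𝒜) r) = toDual E r := by
  refine (redDual_tmul h p r 1).trans ?_
  rw [map_one, map_one, TrivSqZeroExt.inl_one, mul_one]

theorem redDual_surjective (h : IsModel k π) (p : H →ₐ[k] E) (hp : Function.Surjective p) :
    Function.Surjective (redDual h p) := by
  intro z
  obtain ⟨a, ha⟩ := (hp.comp h.surj) z.fst
  obtain ⟨b, hb⟩ := (hp.comp h.surj) z.snd
  refine ⟨((show Ram k from (1 : PowerSeries k)) ⊗ₜ[PowerSeries k] a : Ram k ⊗[PowerSeries k] 𝒜) +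
    ((show Ram k from (X : PowerSeries k)) ⊗ₜ[PowerSeries k] b : Ram k ⊗[PowerSeries k] 𝒜), ?_⟩
  have h1 := (redDual h p).map_add
    (((show Ram k from (1 : PowerSeries k)) ⊗ₜ[PowerSeries k] a : Ram k ⊗[PowerSeries k] 𝒜))
    (((show Ram k from (X : PowerSeries k)) ⊗ₜ[PowerSeries k] b : Ram k ⊗[PowerSeries k] 𝒜))
  refine h1.trans ?_
  rw [redDual_tmul, redDual_tmul, toDual_X, map_one, one_mul]
  have ha' : p (π a) = z.fst := ha
  have hb' : p (π b) = z.snd := hb
  rw [ha', hb']
  apply TrivSqZeroExt.ext <;> simp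

theorem dle_of_dual {G : Type u} [CommRing G] [Algebra k G] {N : ℕ} (hE : Dle k E N)
    (S : Subalgebra k (DualNumber E)) (h : (DualNumber.eps : DualNumber E) ∈ S)
    (ψ : S →ₐ[k] G) (hψ : Function.Surjective ψ) (h0 : ψ ⟨DualNumber.eps, h⟩ = 0) :
    Dle k G N := by
  obtain ⟨H, i1, i2, hH, ⟨p, hp⟩, hfr⟩ := hE
  obtain ⟨𝒜, j1, j2, π, hm⟩ := isSmoothable_iff.mp hH
  have hf := hm.finite
  have hfree := hm.free
  let ρ := redDual hm p
  let P : Subalgebra (PowerSeries k) (Rm k 𝒜) :=
    { carrier := {z | ρ z ∈ S}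
      mul_mem' := by
        intro a b ha hb
        show ρ (a * b) ∈ S
        rw [map_mul]; exact S.mul_mem ha hb
      add_mem' := by
        intro a b ha hb
        show ρ (a + b) ∈ S
        rw [map_add]; exact S.add_mem ha hb
      algebraMap_mem' := by
        intro r
        show ρ (algebraMap (PowerSeries k) (Rm k 𝒜) r) ∈ S
        rw [redDual_algebraMap]
        exact toDual_mem E S h r }
  have hP : ∀ z, z ∈ P ↔ ρ z ∈ S := fun z => Iff.rfl
  obtain ⟨B, l1, l2, π', hB⟩ := exists_model_subalgebra (isReduced_rm k 𝒜 hm.reduced) P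
  let φ0 : P →+* S := (ρ.comp P.toSubring.subtype).codRestrict S.toSubring (fun a => a.2)
  have hφ0 : ∀ z : P, ((φ0 z : S) : DualNumber E) = ρ z.1 := fun _ => rfl
  let φ : P →+* G := (ψ : S →+* G).comp φ0
  obtain ⟨g, hg⟩ := hB.exists_lift φ (by
    have h1 : φ0 (algebraMap (PowerSeries k) P X) = ⟨DualNumber.eps, h⟩ := by
      apply Subtype.ext
      rw [hφ0]
      refine (redDual_algebraMap hm p X).trans ?_
      exact toDual_X E
    show ψ (φ0 (algebraMap (PowerSeries k) P X)) = 0
    rw [h1, h0]) (by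
    intro r
    have h1 : φ0 (algebraMap (PowerSeries k) P (C r)) = algebraMap k S r := by
      apply Subtype.ext
      rw [hφ0]
      refine (redDual_algebraMap hm p (C r)).trans ?_
      exact toDual_C E r
    show ψ (φ0 (algebraMap (PowerSeries k) P (C r))) = algebraMap k G r
    rw [h1, AlgHom.commutes])
  refine ⟨B, l1, l2, isSmoothable_iff.mpr ⟨_, _, _, _, hB⟩, ⟨g, ?_⟩, ?_⟩
  · intro x
    obtain ⟨s, hs⟩ := hψ x
    obtain ⟨z, hz⟩ := redDual_surjective hm p hp s.1
    have hz' : z ∈ P := by
      rw [hP]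
      show redDual hm p z ∈ S
      rw [hz]
      exact s.2
    refine ⟨π' ⟨z, hz'⟩, ?_⟩
    rw [hg]
    have h1 : φ0 ⟨z, hz'⟩ = s := by
      apply Subtype.ext
      rw [hφ0]
      exact hz
    show ψ (φ0 ⟨z, hz'⟩) = x
    rw [h1, hs]
  · rw [hB.finrank_eq]
    have h1 : finrank (PowerSeries k) P ≤ finrank (PowerSeries k) (Rm k 𝒜) :=
      Submodule.finrank_le (Subalgebra.toSubmodule P)
    rw [finrank_rm, ← hm.finrank_eq] at h1
    exact h1.trans hfr

end main

/-- The degeneration principle holds over every field. -/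
theorem t_dual (k : Type u) [Field k] : T_DUAL k :=
  fun _ _ _ _ _ _ _ hE S h ψ hψ h0 => dle_of_dual hE S h ψ hψ h0

end Pool.Agent.H15.CX
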