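import Pool.Agent.H15.CX.Cover
import Pool.Agent.H2.WG.Growth

/-!
# The growth rate of the degrees of smoothable covers of powers
-/

open TensorProduct Module Filter Topology

namespace Pool.Agent.H15.CX

open Pool.Agent.H12.Defect Pool.Agent.H15.Defect Pool.Agent.H15.ER Pool.Agent.H2.WG
open Pool.Agent.H14.MM
open Pool.Agent.H14.RF hiding tr

universe u

section defs

variable (k : Type u) [Field k] (A : Type u) [CommRing A] [Algebra k A]

/-- For `Γ = Spec A` of degree `d`: the number `d ^ n + δ(Γ ^ n)`, which is the least degree of a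
smoothable finite scheme containing `Γ ^ n`. -/
noncomputable def cdeg (n : ℕ) : ℕ := finrank k A ^ n + (defect k (⨂[k] _ : Fin n, A)).toNat

/-- For `Γ = Spec A` of degree `d`: the infimum over `n ≥ 1` of `(d ^ n + δ(Γ ^ n)) ^ (1 / n)`. -/
noncomputable def Lam : ℝ := ⨅ n : ℕ, (cdeg k A (n + 1) : ℝ) ^ (1 / ((n + 1 : ℕ) : ℝ))

end defs

section basic

variable {k : Type u} [Field k] {A : Type u} [CommRing A] [Algebra k A]

theorem cdeg_le_of_dle [Module.Finite k A] {n N : ℕ} (h : Dle k (⨂[k] _ : Fin n, A) N) :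
    cdeg k A n ≤ N := by
  have h1 := (defect_eq h).2.2
  rwa [finrank_power] at h1

theorem dle_cdeg [IsAlgClosed k] [Module.Finite k A] (n : ℕ) :
    Dle k (⨂[k] _ : Fin n, A) (cdeg k A n) := by
  obtain ⟨N, hN⟩ := exists_dle (k := k) A
  have h1 := dle_defect (hN.pow n)
  rwa [finrank_power] at h1

theorem Lam_le {n : ℕ} (hn : 1 ≤ n) : Lam k A ≤ (cdeg k A n : ℝ) ^ (1 / (n : ℝ)) := by
  obtain ⟨m, rfl⟩ := Nat.exists_eq_add_of_le' hn
  refine ciInf_le (f := fun n : ℕ => (cdeg k A (n + 1) : ℝ) ^ (1 / ((n + 1 : ℕ) : ℝ)))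
    ⟨0, ?_⟩ m
  rintro _ ⟨n, rfl⟩
  exact Real.rpow_nonneg (Nat.cast_nonneg _) _

theorem Lam_nonneg : 0 ≤ Lam k A :=
  le_ciInf fun _ => Real.rpow_nonneg (Nat.cast_nonneg _) _

theorem Lam_pow_le {n : ℕ} (hn : 1 ≤ n) : Lam k A ^ n ≤ cdeg k A n := by
  have h1 := pow_le_pow_left₀ Lam_nonneg (Lam_le (k := k) (A := A) hn) n
  rwa [rpow_root_pow hn (Nat.cast_nonneg _)] at h1

theorem finrank_le_Lam : (finrank k A : ℝ) ≤ Lam k A := by
  refine le_ciInf fun n => ?_
  refine le_rpow_root (by omega) (Nat.cast_nonneg _) ?_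
  rw [cdeg]
  push_cast
  have : (0 : ℝ) ≤ ((defect k (⨂[k] _ : Fin (n + 1), A)).toNat : ℝ) := Nat.cast_nonneg _
  linarith

theorem Lam_le_of_bd [Module.Finite k A] {r : ℝ} (hr : 0 ≤ r) (h : Bd k A r) : Lam k A ≤ r := by
  refine le_of_forall_gt_imp_ge_of_dense fun ρ hρ => ?_
  set ρ' : ℝ := (r + ρ) / 2 with hρ'
  have h1 : r < ρ' := by rw [hρ']; linarith
  have h2 : ρ' < ρ := by rw [hρ']; linarith
  obtain ⟨C, hC⟩ := h ρ' h1
  obtain ⟨N, hN, hN1⟩ := ((eventually_poly_le (show 0 < ρ' by linarith) h2 C 0 1).and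
    (eventually_ge_atTop 1)).exists
  obtain ⟨D, hD, hDle⟩ := hC N
  have h3 : (cdeg k A N : ℝ) ≤ C * ρ' ^ N := by
    have : (cdeg k A N : ℝ) ≤ D := by exact_mod_cast cdeg_le_of_dle hD
    linarith
  have h4 : (cdeg k A N : ℝ) ≤ ρ ^ N := by
    refine h3.trans ?_
    simpa using hN
  exact (Lam_le hN1).trans (rpow_root_le hN1 (Nat.cast_nonneg _) (by linarith) h4)

theorem bd_of_Lam_le [IsAlgClosed k] [Module.Finite k A] [Nontrivial A] {r : ℝ}
    (h : Lam k A ≤ r) : Bd k A r := by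
  intro ρ hρ
  obtain ⟨α⟩ := exists_point (k := k) (A := A)
  have hd : 1 ≤ finrank k A := Module.finrank_pos
  have hρ1 : 1 ≤ ρ := by
    have h1 : (1 : ℝ) ≤ finrank k A := by exact_mod_cast hd
    linarith [finrank_le_Lam (k := k) (A := A)]
  obtain ⟨n, hn⟩ := exists_lt_of_ciInf_lt (lt_of_le_of_lt h hρ)
  refine Bd.of_pow α (m := n + 1) (by omega) hρ1 (bd_of_dle (dle_cdeg (n + 1))) ?_
  have h2 : (0 : ℝ) ≤ (cdeg k A (n + 1) : ℝ) ^ (1 / ((n + 1 : ℕ) : ℝ)) :=
    Real.rpow_nonneg (Nat.cast_nonneg _) _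
  have h3 := pow_lt_pow_left₀ hn h2 (show n + 1 ≠ 0 by omega)
  rwa [rpow_root_pow (by omega) (Nat.cast_nonneg _)] at h3

theorem Lam_le_iff_bd [IsAlgClosed k] [Module.Finite k A] [Nontrivial A] {r : ℝ} (hr : 0 ≤ r) :
    Lam k A ≤ r ↔ Bd k A r := ⟨bd_of_Lam_le, Lam_le_of_bd hr⟩

theorem one_le_Lam [Module.Finite k A] [Nontrivial A] : 1 ≤ Lam k A := by
  have hd : 1 ≤ finrank k A := Module.finrank_pos
  have h1 : (1 : ℝ) ≤ finrank k A := by exact_mod_cast hd
  linarith [finrank_le_Lam (k := k) (A := A)]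

theorem Lam_le_of_dle [Module.Finite k A] {N : ℕ} (h : Dle k A N) : Lam k A ≤ N :=
  Lam_le_of_bd (Nat.cast_nonneg _) (bd_of_dle h)

theorem Lam_of_smoothable (h : IsSmoothable k A) : Lam k A = finrank k A := by
  have := IsSmoothable.finite h
  exact le_antisymm (Lam_le_of_dle (IsSmoothable.dle h)) finrank_le_Lam

/-- The infimum is a limit. -/
theorem tendsto_cdeg [IsAlgClosed k] [Module.Finite k A] [Nontrivial A] :
    Tendsto (fun n : ℕ => (cdeg k A n : ℝ) ^ (1 / (n : ℝ))) atTop (𝓝 (Lam k A)) := by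
  refine growth_limit (lt_of_lt_of_le one_pos one_le_Lam) 0 (fun _ => Nat.cast_nonneg _) ?_ ?_
  · intro N hN
    have := Lam_pow_le (k := k) (A := A) hN
    simpa using this
  · intro ρ hρ
    set ρ' : ℝ := (Lam k A + ρ) / 2 with hρ'
    have h1 : Lam k A < ρ' := by rw [hρ']; linarith
    have h2 : ρ' < ρ := by rw [hρ']; linarith
    have h0 : 0 < ρ' := lt_of_le_of_lt Lam_nonneg h1
    obtain ⟨C, hC⟩ := bd_of_Lam_le (le_refl (Lam k A)) ρ' h1
    filter_upwards [eventually_poly_le h0 h2 C 0 1] with N hN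
    obtain ⟨D, hD, hDle⟩ := hC N
    have h3 : (cdeg k A N : ℝ) ≤ C * ρ' ^ N := by
      have : (cdeg k A N : ℝ) ≤ D := by exact_mod_cast cdeg_le_of_dle hD
      linarith
    refine h3.trans ?_
    simpa using hN

/-- Q1 for a single scheme. -/
theorem q1_iff [IsAlgClosed k] [Module.Finite k A] [Nontrivial A] :
    (∀ ε : ℝ, 0 < ε → Tendsto (growthRatio k A ε) atTop (𝓝 0)) ↔ Lam k A = finrank k A := by
  obtain ⟨α⟩ := exists_point (k := k) (A := A)
  have h0 : ((finrank k A : ℝ) ^ (1 + (0 : ℝ))) = finrank k A := by rw [add_zero, Real.rpow_one]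
  constructor
  · intro h
    have h1 := Bd.of_tendsto le_rfl α h
    rw [h0] at h1
    exact le_antisymm (Lam_le_of_bd (Nat.cast_nonneg _) h1) finrank_le_Lam
  · intro h ε hε
    have h1 : Bd k A ((finrank k A : ℝ) ^ (1 + (0 : ℝ))) := by
      rw [h0]
      exact bd_of_Lam_le h.le
    exact h1.tendsto hε

end basic

section ops

variable {k : Type u} [Field k] [IsAlgClosed k] {A B : Type u} [CommRing A] [Algebra k A]
  [Module.Finite k A] [Nontrivial A] [CommRing B] [Algebra k B] [Module.Finite k B]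
  [Nontrivial B]

theorem Lam_tensor_le : Lam k (A ⊗[k] B) ≤ Lam k A * Lam k B := by
  have hA : 0 < Lam k A := lt_of_lt_of_le one_pos one_le_Lam
  have hB : 0 < Lam k B := lt_of_lt_of_le one_pos one_le_Lam
  exact Lam_le_of_bd (by positivity) (Bd.tensor hA hB (bd_of_Lam_le le_rfl) (bd_of_Lam_le le_rfl))

theorem Lam_prod_le : Lam k (A × B) ≤ Lam k A + Lam k B := by
  have hA : 0 < Lam k A := lt_of_lt_of_le one_pos one_le_Lam
  have hB : 0 < Lam k B := lt_of_lt_of_le one_pos one_le_Lam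
  exact Lam_le_of_bd (by positivity) (Bd.prod (bd_of_Lam_le le_rfl) (bd_of_Lam_le le_rfl))

end ops

end Pool.Agent.H15.CX
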