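import Pool.Agent.H15.ER.SQ

/-!
# Idealizations

For a homomorphism `q : P → Y` of commutative `k`-algebras, the `P`-module `Y` and the algebra
`P ⊕ Y` in which `Y` is an ideal of square zero.
-/

open TensorProduct Module

namespace Pool.Agent.H15.CX

open Pool.Agent.H15.Defect

universe u

section defn

variable {k P Y : Type u} [Field k] [CommRing P] [Algebra k P] [CommRing Y] [Algebra k Y]

/-- The algebra `P ⊕ Y` with product `(p, y) (p', y') = (p p', q(p) y' + q(p') y)`. -/
def Idz (_ : P →ₐ[k] Y) : Type u := P × Y

namespace Idz

variable (q : P →ₐ[k] Y)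

/-- auxiliary: additive structure -/
@[reducible] def auxAdd : AddCommGroup (Idz q) := inferInstanceAs (AddCommGroup (P × Y))

attribute [local instance] auxAdd

/-- auxiliary: vector space structure -/
@[reducible] def auxModule : Module k (Idz q) := inferInstanceAs (Module k (P × Y))

attribute [local instance] auxModule

variable {q}

instance : Mul (Idz q) := ⟨fun a b => (a.1 * b.1, q a.1 * b.2 + q b.1 * a.2)⟩

instance : One (Idz q) := ⟨(1, 0)⟩

@[simp] theorem mul_fst (a b : Idz q) : (a * b).1 = a.1 * b.1 := rfl
@[simp] theorem mul_snd (a b : Idz q) : (a * b).2 = q a.1 * b.2 + q b.1 * a.2 := rfl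
@[simp] theorem one_fst : (1 : Idz q).1 = 1 := rfl
@[simp] theorem one_snd : (1 : Idz q).2 = 0 := rfl
theorem add_fst (a b : Idz q) : (a + b).1 = a.1 + b.1 := rfl
theorem add_snd (a b : Idz q) : (a + b).2 = a.2 + b.2 := rfl
@[simp] theorem zero_fst : (0 : Idz q).1 = 0 := rfl
@[simp] theorem zero_snd : (0 : Idz q).2 = 0 := rfl
@[simp] theorem smul_fst (c : k) (a : Idz q) : (c • a).1 = c • a.1 := rfl
@[simp] theorem smul_snd (c : k) (a : Idz q) : (c • a).2 = c • a.2 := rfl

@[ext] theorem ext' {a b : Idz q} (h1 : a.1 = b.1) (h2 : a.2 = b.2) : a = b := Prod.ext h1 h2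

instance : CommRing (Idz q) :=
  { (inferInstance : AddCommGroup (Idz q)) with
    mul := (· * ·)
    one := 1
    left_distrib := by
      intro a b c
      apply ext'
      · simp only [mul_fst, add_fst]; ring
      · simp only [mul_snd, add_fst, add_snd, map_add]; ring
    right_distrib := by
      intro a b c
      apply ext'
      · simp only [mul_fst, add_fst]; ring
      · simp only [mul_snd, add_fst, add_snd, map_add]; ring
    zero_mul := by
      intro a
      apply ext' <;> simp
    mul_zero := by
      intro a
      apply ext' <;> simp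
    mul_assoc := by
      intro a b c
      apply ext'
      · simp only [mul_fst]; ring
      · simp only [mul_fst, mul_snd, map_mul]; ring
    one_mul := by
      intro a
      apply ext' <;> simp
    mul_one := by
      intro a
      apply ext' <;> simp
    mul_comm := by
      intro a b
      apply ext'
      · simp only [mul_fst]; ring
      · simp only [mul_snd]; ring }

instance : Algebra k (Idz q) :=
  Algebra.ofModule
    (by
      intro r x y
      apply ext'
      · simp only [mul_fst, smul_fst, smul_mul_assoc]
      · simp only [mul_snd, smul_fst, smul_snd, map_smul, smul_add, smul_mul_assoc,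
          mul_smul_comm])
    (by
      intro r x y
      apply ext'
      · simp only [mul_fst, smul_fst, mul_smul_comm]
      · simp only [mul_snd, smul_fst, smul_snd, map_smul, smul_add, smul_mul_assoc,
          mul_smul_comm])

variable {P' Y' : Type u} [CommRing P'] [Algebra k P'] [CommRing Y'] [Algebra k Y']
  {q' : P' →ₐ[k] Y'}

/-- functoriality -/
def map (f : P →ₐ[k] P') (g : Y →ₗ[k] Y') (h : ∀ p y, g (q p * y) = q' (f p) * g y) :
    Idz q →ₐ[k] Idz q' :=
  AlgHom.ofLinearMap
    { toFun := fun a => ((f a.1, g a.2) : P' × Y')
      map_add' := by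
        intro a b
        apply ext'
        · exact map_add f _ _
        · exact map_add g _ _
      map_smul' := by
        intro c a
        apply ext'
        · exact map_smul f _ _
        · exact map_smul g _ _ }
    (by
      apply ext'
      · exact map_one f
      · exact map_zero g)
    (by
      intro a b
      apply ext'
      · exact map_mul f _ _
      · show g (q a.1 * b.2 + q b.1 * a.2) = q' (f a.1) * g b.2 + q' (f b.1) * g a.2
        rw [map_add, h, h])

@[simp] theorem map_fst (f : P →ₐ[k] P') (g : Y →ₗ[k] Y')
    (h : ∀ p y, g (q p * y) = q' (f p) * g y) (a : Idz q) : (map f g h a).1 = f a.1 := rfl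

@[simp] theorem map_snd (f : P →ₐ[k] P') (g : Y →ₗ[k] Y')
    (h : ∀ p y, g (q p * y) = q' (f p) * g y) (a : Idz q) : (map f g h a).2 = g a.2 := rfl

theorem map_surjective (f : P →ₐ[k] P') (g : Y →ₗ[k] Y')
    (h : ∀ p y, g (q p * y) = q' (f p) * g y) (hf : Function.Surjective f)
    (hg : Function.Surjective g) : Function.Surjective (map f g h) := by
  intro a
  obtain ⟨p, hp⟩ := hf a.1
  obtain ⟨y, hy⟩ := hg a.2
  exact ⟨((p, y) : P × Y), ext' hp hy⟩

theorem map_injective (f : P →ₐ[k] P') (g : Y →ₗ[k] Y')
    (h : ∀ p y, g (q p * y) = q' (f p) * g y) (hf : Function.Injective f)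
    (hg : Function.Injective g) : Function.Injective (map f g h) := by
  intro a b hab
  apply ext'
  · exact hf (congrArg (fun z : Idz q' => z.1) hab)
  · exact hg (congrArg (fun z : Idz q' => z.2) hab)

end Idz

end defn

end Pool.Agent.H15.CX
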