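import Pool.Agent.H15.CX.Growth

/-!
# Disjoint unions: pairing the factors of powers
-/

open TensorProduct Module Filter Topology

namespace Pool.Agent.H15.CX

open Pool.Agent.H12.Defect Pool.Agent.H15.Defect Pool.Agent.H15.ER Pool.Agent.H2.WG
open Pool.Agent.H14.MM
open Pool.Agent.H14.RF hiding tr

universe u

variable {k : Type u} [Field k] {A Z : Type u} [CommRing A] [Algebra k A] [CommRing Z]
  [Algebra k Z]

theorem dle_pow_zero (A : Type u) [CommRing A] [Algebra k A] :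
    Dle k (⨂[k] _ : Fin 0, A) 1 :=
  (dle_self k).of_surjective (Algebra.ofId k _) fun z => exists_eq_algebraMap z

theorem pair_succ {s t N M : ℕ} (hN : Dle k (A ⊗[k] Z) N)
    (hM : Dle k ((⨂[k] _ : Fin s, A) ⊗[k] (⨂[k] _ : Fin t, Z)) M) :
    Dle k ((⨂[k] _ : Fin (s + 1), A) ⊗[k] (⨂[k] _ : Fin (t + 1), Z)) (N * M) := by
  have h1 : Dle k ((A ⊗[k] Z) ⊗[k] ((⨂[k] _ : Fin s, A) ⊗[k] (⨂[k] _ : Fin t, Z))) (N * M) :=
    hN.tensor hM
  have h2 : Dle k ((A ⊗[k] (⨂[k] _ : Fin s, A)) ⊗[k] (Z ⊗[k] (⨂[k] _ : Fin t, Z))) (N * M) :=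
    h1.of_equiv (Algebra.TensorProduct.tensorTensorTensorComm k k k k A Z
      (⨂[k] _ : Fin s, A) (⨂[k] _ : Fin t, Z))
  exact h2.of_surjective (Algebra.TensorProduct.map (consHom k A s) (consHom k Z t))
    (TensorProduct.map_surjective (consHom_surjective s) (consHom_surjective t))

theorem pair_bound {N z : ℕ} (hN : Dle k (A ⊗[k] Z) N) (hz : Dle k Z z) :
    ∀ s j : ℕ, Dle k ((⨂[k] _ : Fin s, A) ⊗[k] (⨂[k] _ : Fin (s + j), Z)) (N ^ s * z ^ j) := by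
  intro s
  induction s with
  | zero =>
    intro j
    have h1 : Dle k ((⨂[k] _ : Fin 0, A) ⊗[k] (⨂[k] _ : Fin (0 + j), Z)) (1 * z ^ (0 + j)) :=
      (dle_pow_zero A).tensor (hz.pow (0 + j))
    have e : z ^ j = z ^ (0 + j) := by rw [zero_add]
    rw [pow_zero, e]
    exact h1
  | succ s ih =>
    intro j
    have h1 := pair_succ hN (ih j)
    have h2 : s + 1 + j = s + j + 1 := by omega
    rw [h2, pow_succ' N, mul_assoc]
    exact h1

theorem pair_real {N z D : ℕ} (hN : Dle k (A ⊗[k] Z) N) (hz : Dle k Z z) (hD : Dle k A D)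
    (hz0 : 0 < z) (s t : ℕ) :
    ∃ M : ℕ, Dle k ((⨂[k] _ : Fin s, A) ⊗[k] (⨂[k] _ : Fin t, Z)) M ∧
      (M : ℝ) ≤ ((N : ℝ) / z) ^ s * (z : ℝ) ^ t + (2 * (D : ℝ)) ^ s * ((z : ℝ) / 2) ^ t := by
  have hz1 : (0 : ℝ) < z := by exact_mod_cast hz0
  rcases Nat.le_total s t with h | h
  · obtain ⟨j, rfl⟩ := Nat.exists_eq_add_of_le h
    refine ⟨_, pair_bound hN hz s j, ?_⟩
    push_cast
    have h1 : ((N : ℝ) / z) ^ s * (z : ℝ) ^ (s + j) = (N : ℝ) ^ s * (z : ℝ) ^ j := by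
      rw [div_pow, pow_add]
      field_simp
    rw [h1]
    have h2 : (0 : ℝ) ≤ (2 * (D : ℝ)) ^ s * ((z : ℝ) / 2) ^ (s + j) := by positivity
    linarith
  · obtain ⟨j, rfl⟩ := Nat.exists_eq_add_of_le h
    refine ⟨_, (hD.pow (t + j)).tensor (hz.pow t), ?_⟩
    push_cast
    have h1 : (2 * (D : ℝ)) ^ (t + j) * ((z : ℝ) / 2) ^ t = 2 ^ j * ((D : ℝ) ^ (t + j) * (z : ℝ) ^ t) := by
      rw [mul_pow, div_pow, pow_add 2 t j]
      field_simp
    rw [h1]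
    have h2 : (1 : ℝ) ≤ 2 ^ j := one_le_pow₀ (by norm_num)
    have h3 : (0 : ℝ) ≤ (D : ℝ) ^ (t + j) * (z : ℝ) ^ t := by positivity
    have h4 : (0 : ℝ) ≤ ((N : ℝ) / z) ^ (t + j) * (z : ℝ) ^ t := by positivity
    nlinarith

theorem T_bound2 {N z D : ℕ} (hN : Dle k (A ⊗[k] Z) N) (hz : Dle k Z z) (hD : Dle k A D)
    (hz0 : 0 < z) (n : ℕ) : ∀ s t : ℕ, ∃ M : ℕ, Dle k (T k A Z s t n) M ∧
      (M : ℝ) ≤ ((N : ℝ) / z) ^ s * (z : ℝ) ^ t * ((N : ℝ) / z + z) ^ n +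
        (2 * (D : ℝ)) ^ s * ((z : ℝ) / 2) ^ t * (2 * (D : ℝ) + (z : ℝ) / 2) ^ n := by
  induction n with
  | zero =>
    intro s t
    obtain ⟨M, hM, hle⟩ := pair_real hN hz hD hz0 s t
    refine ⟨M * 1, hM.tensor (dle_pow_zero (A × Z)), ?_⟩
    simpa using hle
  | succ n ih =>
    intro s t
    obtain ⟨M, hM, hle⟩ := ih (s + 1) t
    obtain ⟨M', hM', hle'⟩ := ih s (t + 1)
    refine ⟨M + M', dle_T_succ hM hM', ?_⟩
    push_cast
    calc (M : ℝ) + M' ≤ _ := add_le_add hle hle'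
      _ = _ := by ring

/-- The growth rate of a disjoint union, bounded by the product. -/
theorem bd_union {N z D : ℕ} (hN : Dle k (A ⊗[k] Z) N) (hz : Dle k Z z) (hD : Dle k A D)
    (hz0 : 0 < z) (hzD : 4 * D ≤ z) : Bd k (A × Z) ((N : ℝ) / z + z) := by
  intro ρ hρ
  refine ⟨2, fun n => ?_⟩
  obtain ⟨M, hM, hle⟩ := T_bound2 hN hz hD hz0 n 0 0
  refine ⟨M, ?_, ?_⟩
  · have h0 : Dle k (T k A Z 0 0 n) M := hM
    refine h0.of_surjective (Algebra.TensorProduct.productMap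
      ((Algebra.ofId k (⨂[k] _ : Fin n, A × Z)).comp (Algebra.TensorProduct.productMap
        (prodHom (B := k) (fun i : Fin 0 => i.elim0)) (prodHom (B := k) (fun i : Fin 0 => i.elim0))))
        (AlgHom.id k _)) ?_
    intro z
    refine ⟨1 ⊗ₜ z, ?_⟩
    rw [Algebra.TensorProduct.productMap_apply_tmul, map_one, one_mul]
    rfl
  · rw [pow_zero, pow_zero, pow_zero, pow_zero, one_mul, one_mul, one_mul] at hle
    have h1 : (4 : ℝ) * D ≤ z := by exact_mod_cast hzD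
    have h2 : (0 : ℝ) ≤ (N : ℝ) / z := by positivity
    have h3 : (2 * (D : ℝ) + (z : ℝ) / 2) ≤ (N : ℝ) / z + z := by linarith
    have h4 : (2 * (D : ℝ) + (z : ℝ) / 2) ^ n ≤ ρ ^ n :=
      pow_le_pow_left₀ (by positivity) (h3.trans hρ.le) n
    have h5 : ((N : ℝ) / z + z) ^ n ≤ ρ ^ n := pow_le_pow_left₀ (by positivity) hρ.le n
    linarith

end Pool.Agent.H15.CX
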