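import Pool.Agent.H15.CX.Ratio
import Pool.Agent.H15.CX.Union

/-!
# Catalytic exactness
-/

open TensorProduct Module Filter Topology

namespace Pool.Agent.H15.CX

open Pool.Agent.H12.Defect Pool.Agent.H15.Defect Pool.Agent.H15.ER
open Pool.Agent.H14.MM
open Pool.Agent.H14.RF hiding tr

universe u

section zz

variable (k : Type u) [Field k] (b : ℕ)

theorem finrank_ZZ : finrank k (ZZ k b) = b + 1 := by
  have h1 : finrank k (k × (Fin b → k)) = b + 1 := by
    rw [Module.finrank_prod, Module.finrank_self, Module.finrank_fintype_fun_eq_card,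
      Fintype.card_fin, add_comm]
  exact h1

instance finite_ZZ : Module.Finite k (ZZ k b) := inferInstanceAs (Module.Finite k (k × (Fin b → k)))

instance nontrivial_ZZ : Nontrivial (ZZ k b) := inferInstanceAs (Nontrivial (k × (Fin b → k)))

theorem dle_ZZ : Dle k (ZZ k b) (b + 1) := by
  have h1 : Dle k (Idz (guv (AlgHom.id k k) 0 b)) (1 + b) := dle_base _ _ (dle_self k)
  rw [add_comm] at h1
  let f : Idz (guv (AlgHom.id k k) 0 b) →ₗ[k] ZZ k b :=
    { toFun := fun x => TrivSqZeroExt.inl x.1 + TrivSqZeroExt.inr x.2.2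
      map_add' := by
        intro x y
        apply TrivSqZeroExt.ext <;> simp [Idz.add_fst, Idz.add_snd]
      map_smul' := by
        intro c x
        apply TrivSqZeroExt.ext <;> simp }
  have hf : ∀ x, f x = TrivSqZeroExt.inl x.1 + TrivSqZeroExt.inr x.2.2 := fun _ => rfl
  refine h1.of_surjective (AlgHom.ofLinearMap f ?_ ?_) ?_
  · rw [hf]
    apply TrivSqZeroExt.ext <;> simp
  · intro x y
    rw [hf, hf, hf]
    have h2 : (x * y).2.2 = x.1 • y.2.2 + y.1 • x.2.2 := rfl
    rw [h2]
    apply TrivSqZeroExt.ext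
    · simp
    · simp
  · intro z
    refine ⟨((z.fst, (0, z.snd)) : k × ((Fin 0 → k) × (Fin b → k))), ?_⟩
    show f _ = z
    rw [hf]
    apply TrivSqZeroExt.ext <;> simp

theorem isSmoothable_of_dle {A : Type u} [CommRing A] [Algebra k A] [Module.Finite k A]
    (h : Dle k A (finrank k A)) : IsSmoothable k A := by
  obtain ⟨B, i1, i2, hB, ⟨g, hg⟩, hfr⟩ := h
  have := IsSmoothable.finite hB
  have hle : finrank k A ≤ finrank k B := LinearMap.finrank_le_finrank_of_surjective
    (f := g.toLinearMap) hg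
  have hinj : Function.Injective g.toLinearMap :=
    (LinearMap.injective_iff_surjective_of_finrank_eq_finrank (le_antisymm hfr hle)).mpr hg
  exact IsSmoothable.of_equiv (AlgEquiv.ofBijective g ⟨hinj, hg⟩) hB

theorem isSmoothable_ZZ : IsSmoothable k (ZZ k b) := by
  apply isSmoothable_of_dle
  rw [finrank_ZZ]
  exact dle_ZZ k b

end zz

section limits

variable {k : Type u} [Field k] [IsAlgClosed k] (A : Type u) [CommRing A] [Algebra k A]
  [Module.Finite k A] [Nontrivial A]

theorem eventually_cost {η : ℝ} (hη : 0 < η) : ∀ᶠ b : ℕ in atTop, ∃ N : ℕ,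
    Dle k (A ⊗[k] ZZ k b) N ∧ (N : ℝ) ≤ (1 + η) * finrank k A * (b + 1) := by
  obtain ⟨b₀, h⟩ := asy_all (k := k) A η hη
  filter_upwards [eventually_ge_atTop b₀] with b hb
  exact h b hb

theorem finrank_tensor_ZZ (b : ℕ) : finrank k (A ⊗[k] ZZ k b) = finrank k A * (b + 1) := by
  rw [Module.finrank_tensorProduct, finrank_ZZ]

theorem defect_ne_top (b : ℕ) : defect k (A ⊗[k] ZZ k b) ≠ ⊤ := by
  obtain ⟨N, hN⟩ := exists_dle (k := k) A
  exact (defect_eq (hN.tensor (dle_ZZ k b))).1

/-- The relative defect of `Γ × Z_b` tends to zero. -/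
theorem tendsto_defect : Tendsto (fun b : ℕ => ((defect k (A ⊗[k] ZZ k b)).toNat : ℝ) /
    (finrank k (A ⊗[k] ZZ k b) : ℝ)) atTop (𝓝 0) := by
  have ha : (0 : ℝ) < finrank k A := by exact_mod_cast Module.finrank_pos (R := k) (M := A)
  rw [tendsto_order]
  constructor
  · intro x hx
    filter_upwards with b
    exact lt_of_lt_of_le hx (by positivity)
  · intro x hx
    filter_upwards [eventually_cost (k := k) A (half_pos hx)] with b hb
    obtain ⟨N, hN, hle⟩ := hb
    have h1 := (defect_eq hN).2.2
    rw [finrank_tensor_ZZ] at h1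
    rw [finrank_tensor_ZZ]
    have h2 : ((finrank k A * (b + 1) + (defect k (A ⊗[k] ZZ k b)).toNat : ℕ) : ℝ) ≤ N := by
      exact_mod_cast h1
    push_cast at h2 ⊢
    have hab : (0 : ℝ) < finrank k A * (b + 1) := by positivity
    rw [div_lt_iff₀ hab]
    nlinarith

theorem tendsto_tensor : Tendsto (fun b : ℕ => Lam k (A ⊗[k] ZZ k b) / ((b : ℝ) + 1)) atTop
    (𝓝 (finrank k A)) := by
  have ha : (0 : ℝ) < finrank k A := by exact_mod_cast Module.finrank_pos (R := k) (M := A)
  rw [tendsto_order]
  constructor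
  · intro x hx
    filter_upwards with b
    have h1 := finrank_le_Lam (k := k) (A := A ⊗[k] ZZ k b)
    rw [finrank_tensor_ZZ] at h1
    push_cast at h1
    have hb : (0 : ℝ) < (b : ℝ) + 1 := by positivity
    exact lt_of_lt_of_le hx ((le_div_iff₀ hb).mpr h1)
  · intro x hx
    have hη : 0 < (x / finrank k A - 1) / 2 := by
      have : 1 < x / finrank k A := by rwa [one_lt_div ha]
      linarith
    filter_upwards [eventually_cost (k := k) A hη] with b hb
    obtain ⟨N, hN, hle⟩ := hb
    have hb0 : (0 : ℝ) < (b : ℝ) + 1 := by positivity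
    have h1 : Lam k (A ⊗[k] ZZ k b) ≤ N := Lam_le_of_dle hN
    have h2 : (1 + (x / finrank k A - 1) / 2) * (finrank k A : ℝ) < x := by
      have h3 : (1 + (x / finrank k A - 1) / 2) * (finrank k A : ℝ) = (x + finrank k A) / 2 := by
        field_simp
        ring
      rw [h3]
      linarith
    have h4 : Lam k (A ⊗[k] ZZ k b) / ((b : ℝ) + 1) ≤
        (1 + (x / finrank k A - 1) / 2) * (finrank k A : ℝ) := by
      rw [div_le_iff₀ hb0]
      exact h1.trans hle
    exact lt_of_le_of_lt h4 h2

theorem tendsto_union : Tendsto (fun b : ℕ => Lam k (A × ZZ k b) - ((b : ℝ) + 1)) atTop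
    (𝓝 (finrank k A)) := by
  have ha : (0 : ℝ) < finrank k A := by exact_mod_cast Module.finrank_pos (R := k) (M := A)
  obtain ⟨D, hD⟩ := exists_dle (k := k) A
  rw [tendsto_order]
  constructor
  · intro x hx
    filter_upwards with b
    have h1 := finrank_le_Lam (k := k) (A := A × ZZ k b)
    rw [Module.finrank_prod, finrank_ZZ] at h1
    push_cast at h1
    linarith
  · intro x hx
    have hη : 0 < (x / finrank k A - 1) / 2 := by
      have : 1 < x / finrank k A := by rwa [one_lt_div ha]
      linarith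
    filter_upwards [eventually_cost (k := k) A hη, eventually_ge_atTop (4 * D)] with b hb hbD
    obtain ⟨N, hN, hle⟩ := hb
    have hb0 : (0 : ℝ) < (b : ℝ) + 1 := by positivity
    have h0 := bd_union hN (dle_ZZ k b) hD (Nat.succ_pos b) (by omega)
    have h1 := Lam_le_of_bd (by positivity) h0
    push_cast at h1
    have h2 : (1 + (x / finrank k A - 1) / 2) * (finrank k A : ℝ) < x := by
      have h3 : (1 + (x / finrank k A - 1) / 2) * (finrank k A : ℝ) = (x + finrank k A) / 2 := by
        field_simp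
        ring
      rw [h3]
      linarith
    have h4 : (N : ℝ) / ((b : ℝ) + 1) ≤
        (1 + (x / finrank k A - 1) / 2) * (finrank k A : ℝ) := by
      rw [div_le_iff₀ hb0]
      exact hle
    linarith

end limits

section tfae

variable {k : Type u} [Field k] [IsAlgClosed k]

theorem nontrivial_tensor (A B : Type u) [CommRing A] [Algebra k A] [Module.Finite k A]
    [Nontrivial A] [CommRing B] [Algebra k B] [Module.Finite k B] [Nontrivial B] :
    Nontrivial (A ⊗[k] B) := by
  apply Module.nontrivial_of_finrank_pos (R := k)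
  rw [Module.finrank_tensorProduct]
  exact Nat.mul_pos Module.finrank_pos Module.finrank_pos

theorem Lam_tensor_eq {A B : Type u} [CommRing A] [Algebra k A] [Module.Finite k A]
    [Nontrivial A] [CommRing B] [Algebra k B] [Module.Finite k B] [Nontrivial B]
    (hA : Lam k A = finrank k A) (hB : Lam k B = finrank k B) :
    Lam k (A ⊗[k] B) = Lam k A * finrank k B := by
  apply le_antisymm
  · rw [← hB]
    exact Lam_tensor_le
  · have h1 := finrank_le_Lam (k := k) (A := A ⊗[k] B)
    rw [Module.finrank_tensorProduct] at h1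
    push_cast at h1
    rw [hA]
    exact h1

theorem Lam_prod_eq {A B : Type u} [CommRing A] [Algebra k A] [Module.Finite k A]
    [Nontrivial A] [CommRing B] [Algebra k B] [Module.Finite k B] [Nontrivial B]
    (hA : Lam k A = finrank k A) (hB : Lam k B = finrank k B) :
    Lam k (A × B) = Lam k A + finrank k B := by
  apply le_antisymm
  · rw [← hB]
    exact Lam_prod_le
  · have h1 := finrank_le_Lam (k := k) (A := A × B)
    rw [Module.finrank_prod] at h1
    push_cast at h1
    rw [hA]
    exact h1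

theorem eq_of_frequently_tensor (A : Type u) [CommRing A] [Algebra k A] [Module.Finite k A]
    [Nontrivial A] (h : ∃ᶠ b : ℕ in atTop, Lam k (A ⊗[k] ZZ k b) = Lam k A * ((b : ℝ) + 1)) :
    Lam k A = finrank k A := by
  by_contra hne
  apply h
  have h1 := (tendsto_tensor (k := k) A).eventually_ne (Ne.symm hne)
  filter_upwards [h1] with b hb heq
  apply hb
  rw [heq]
  have hb0 : (0 : ℝ) < (b : ℝ) + 1 := by positivity
  field_simp

theorem eq_of_frequently_prod (A : Type u) [CommRing A] [Algebra k A] [Module.Finite k A]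
    [Nontrivial A] (h : ∃ᶠ b : ℕ in atTop, Lam k (A × ZZ k b) = Lam k A + ((b : ℝ) + 1)) :
    Lam k A = finrank k A := by
  by_contra hne
  apply h
  have h1 := (tendsto_union (k := k) A).eventually_ne (Ne.symm hne)
  filter_upwards [h1] with b hb heq
  apply hb
  rw [heq]
  ring

theorem tfae_single (A : Type u) [CommRing A] [Algebra k A] [Module.Finite k A]
    [Nontrivial A] : List.TFAE
    [∀ ε : ℝ, 0 < ε → Tendsto (growthRatio k A ε) atTop (𝓝 0),
     Lam k A = finrank k A,
     ∀ (Z : Type u) [CommRing Z] [Algebra k Z] [Nontrivial Z], IsSmoothable k Z →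
       Lam k (A ⊗[k] Z) = Lam k A * finrank k Z,
     ∀ (Z : Type u) [CommRing Z] [Algebra k Z] [Nontrivial Z], IsSmoothable k Z →
       Lam k (A × Z) = Lam k A + finrank k Z,
     ∃ᶠ b : ℕ in atTop, Lam k (A ⊗[k] ZZ k b) = Lam k A * ((b : ℝ) + 1),
     ∃ᶠ b : ℕ in atTop, Lam k (A × ZZ k b) = Lam k A + ((b : ℝ) + 1)] := by
  tfae_have 1 ↔ 2 := q1_iff
  tfae_have 2 → 3 := by
    intro h Z _ _ _ hZ
    have := IsSmoothable.finite hZ
    exact Lam_tensor_eq h (Lam_of_smoothable hZ)
  tfae_have 2 → 4 := by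
    intro h Z _ _ _ hZ
    have := IsSmoothable.finite hZ
    exact Lam_prod_eq h (Lam_of_smoothable hZ)
  tfae_have 3 → 5 := by
    intro h
    refine Filter.Eventually.frequently (Filter.Eventually.of_forall fun b => ?_)
    rw [h (ZZ k b) (isSmoothable_ZZ k b), finrank_ZZ]
    push_cast
    rfl
  tfae_have 4 → 6 := by
    intro h
    refine Filter.Eventually.frequently (Filter.Eventually.of_forall fun b => ?_)
    rw [h (ZZ k b) (isSmoothable_ZZ k b), finrank_ZZ]
    push_cast
    rfl
  tfae_have 5 → 2 := eq_of_frequently_tensor A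
  tfae_have 6 → 2 := eq_of_frequently_prod A
  tfae_finish

theorem tfae_all : List.TFAE
    [∀ (A : Type u) [CommRing A] [Algebra k A] [Module.Finite k A] [Nontrivial A] (ε : ℝ),
       0 < ε → Tendsto (growthRatio k A ε) atTop (𝓝 0),
     ∀ (A B : Type u) [CommRing A] [Algebra k A] [Module.Finite k A] [Nontrivial A]
       [CommRing B] [Algebra k B] [Module.Finite k B] [Nontrivial B],
       Lam k (A ⊗[k] B) = Lam k A * Lam k B,
     ∀ (A B : Type u) [CommRing A] [Algebra k A] [Module.Finite k A] [Nontrivial A]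
       [CommRing B] [Algebra k B] [Module.Finite k B] [Nontrivial B],
       Lam k (A × B) = Lam k A + Lam k B] := by
  tfae_have 1 → 2 := by
    intro h A B _ _ _ _ _ _ _ _
    have hA := q1_iff.mp (h A)
    have hB := q1_iff.mp (h B)
    rw [Lam_tensor_eq hA hB, hB]
  tfae_have 1 → 3 := by
    intro h A B _ _ _ _ _ _ _ _
    have hA := q1_iff.mp (h A)
    have hB := q1_iff.mp (h B)
    rw [Lam_prod_eq hA hB, hB]
  tfae_have 2 → 1 := by
    intro h A _ _ _ _
    refine ((tfae_single (k := k) A).out 2 0).mp ?_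
    intro Z _ _ _ hZ
    have := IsSmoothable.finite hZ
    rw [h, Lam_of_smoothable hZ]
  tfae_have 3 → 1 := by
    intro h A _ _ _ _
    refine ((tfae_single (k := k) A).out 3 0).mp ?_
    intro Z _ _ _ hZ
    have := IsSmoothable.finite hZ
    rw [h, Lam_of_smoothable hZ]
  tfae_finish

end tfae

end Pool.Agent.H15.CX
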