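import Pool.Agent.H15.CX.Rel

/-!
# Splitting along composition series of local algebras
-/

open TensorProduct Module

namespace Pool.Agent.H15.CX

open Pool.Agent.H15.Defect

universe u

section socle

variable {k A B : Type u} [Field k] [CommRing A] [Algebra k A] [CommRing B] [Algebra k B]

/-- socle elements in a nonzero ideal -/
theorem exists_socle (β : B →ₐ[k] k) {c : ℕ} (hc : RingHom.ker β ^ c = ⊥) {K : Ideal B}
    (hK : K ≠ ⊥) : ∃ z ∈ K, z ≠ 0 ∧ ∀ b, b * z = β b • z := by
  have hex : ∃ m, K * RingHom.ker β ^ m ≠ ⊥ ∧ K * RingHom.ker β ^ (m + 1) = ⊥ := by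
    by_contra hcon
    have h0 : ∀ m, K * RingHom.ker β ^ m ≠ ⊥ := by
      intro m
      induction m with
      | zero => rw [pow_zero, Ideal.one_eq_top, Ideal.mul_top]; exact hK
      | succ m ih =>
        intro h1
        exact hcon ⟨m, ih, h1⟩
    exact h0 c (by rw [hc, Ideal.mul_bot])
  obtain ⟨m, hm1, hm2⟩ := hex
  obtain ⟨z, hz, hz0⟩ := Submodule.exists_mem_ne_zero_of_ne_bot hm1
  refine ⟨z, Ideal.mul_le_left hz, hz0, fun b => ?_⟩
  have h1 : b - algebraMap k B (β b) ∈ RingHom.ker β := by
    rw [RingHom.mem_ker, map_sub, AlgHom.commutes]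
    exact sub_self _
  have h2 : (b - algebraMap k B (β b)) * z ∈ K * RingHom.ker β ^ (m + 1) := by
    rw [pow_succ, ← mul_assoc, mul_comm (b - _) z]
    exact Ideal.mul_mem_mul hz h1
  rw [hm2, Ideal.mem_bot, sub_mul, sub_eq_zero] at h2
  rw [h2, Algebra.smul_def]

theorem finrank_quotient_socle [Module.Finite k B] (β : B →ₐ[k] k) {z : B} (hz0 : z ≠ 0)
    (hz : ∀ b, b * z = β b • z) :
    finrank k (B ⧸ Ideal.span {z}) + 1 = finrank k B := by
  have h1 : (Ideal.span {z}).restrictScalars k = Submodule.span k {z} := by
    apply le_antisymm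
    · intro x hx
      rw [Submodule.restrictScalars_mem, Ideal.mem_span_singleton'] at hx
      obtain ⟨a, rfl⟩ := hx
      rw [hz]
      exact Submodule.smul_mem _ _ (Submodule.mem_span_singleton_self z)
    · rw [Submodule.span_le, Set.singleton_subset_iff]
      exact Ideal.mem_span_singleton_self z
  have h2 := Submodule.finrank_quotient_add_finrank ((Ideal.span {z}).restrictScalars k)
  rw [h1, finrank_span_singleton hz0] at h2
  rw [← h2, ← h1]
  rfl

end socle

section split

variable {k P A A' : Type u} [Field k] [CommRing P] [Algebra k P] [CommRing A] [Algebra k A]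
  [CommRing A'] [Algebra k A']

/-- evaluation of the left factor -/
noncomputable def evL {B : Type u} [CommRing B] [Algebra k B] (β : B →ₐ[k] k) :
    B ⊗[k] A' →ₐ[k] A' :=
  (Algebra.TensorProduct.lid k A').toAlgHom.comp
    (Algebra.TensorProduct.map β (AlgHom.id k A'))

@[simp] theorem evL_tmul {B : Type u} [CommRing B] [Algebra k B] (β : B →ₐ[k] k) (b : B)
    (a : A') : evL β (b ⊗ₜ[k] a) = β b • a := by
  simp [evL]

theorem map_id_surjective {B : Type u} [CommRing B] [Algebra k B] (f : B →ₐ[k] A)
    (hf : Function.Surjective f) :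
    Function.Surjective (Algebra.TensorProduct.map f (AlgHom.id k A')) := by
  have h1 : Function.Surjective (TensorProduct.map f.toLinearMap (LinearMap.id : A' →ₗ[k] A')) :=
    TensorProduct.map_surjective hf Function.surjective_id
  exact h1

theorem mul_socle {B : Type u} [CommRing B] [Algebra k B] (β : B →ₐ[k] k) {z : B}
    (hz : ∀ b, b * z = β b • z) (t : B ⊗[k] A') (y : A') :
    t * (z ⊗ₜ[k] y) = z ⊗ₜ[k] (evL β t * y) := by
  induction t using TensorProduct.induction_on with
  | zero => rw [zero_mul, map_zero, zero_mul, TensorProduct.tmul_zero]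
  | add s t hs ht => rw [add_mul, hs, ht, map_add, add_mul, TensorProduct.tmul_add]
  | tmul b a =>
    rw [Algebra.TensorProduct.tmul_mul_tmul, hz, evL_tmul, TensorProduct.smul_tmul,
      smul_mul_assoc]

theorem split_local (HD : T_DUAL k) (α : A →ₐ[k] k) :
    ∀ (s : ℕ) (B : Type u) [CommRing B] [Algebra k B] [Module.Finite k B] (π : B →ₐ[k] A)
      (_ : Function.Surjective π) (c : ℕ) (_ : RingHom.ker (α.comp π) ^ c = ⊥)
      (_ : finrank k B = finrank k A + s) (q : P →ₐ[k] B ⊗[k] A'),
      Le q (((Algebra.TensorProduct.map π (AlgHom.id k A')).comp q).prod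
        (powH ((evL (α.comp π)).comp q) s)) := by
  intro s
  induction s with
  | zero =>
    intro B _ _ _ π hπ c hc hfr q
    refine Le.of_linear ((Algebra.TensorProduct.map π (AlgHom.id k A')).toLinearMap.prod 0) ?_ ?_
    · rintro ⟨y, f⟩
      obtain ⟨x, hx⟩ := map_id_surjective (A' := A') π hπ y
      exact ⟨x, Prod.ext hx (Subsingleton.elim _ _)⟩
    · intro p y
      apply Prod.ext
      · exact map_mul (Algebra.TensorProduct.map π (AlgHom.id k A')) (q p) y
      · exact Subsingleton.elim _ _
  | succ s ih =>
    intro B _ _ _ π hπ c hc hfr q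
    have hK : RingHom.ker π ≠ ⊥ := by
      intro h0
      have hinj : Function.Injective π := (RingHom.injective_iff_ker_eq_bot π).mpr h0
      have := LinearEquiv.finrank_eq (AlgEquiv.ofBijective π ⟨hinj, hπ⟩).toLinearEquiv
      omega
    obtain ⟨z, hzK, hz0, hz⟩ := exists_socle (α.comp π) hc hK
    have hfin : Module.Finite k (B ⧸ Ideal.span {z}) := Module.Finite.of_surjective
      (Ideal.Quotient.mkₐ k _).toLinearMap Ideal.Quotient.mk_surjective
    let mk : B →ₐ[k] (B ⧸ Ideal.span {z}) := Ideal.Quotient.mkₐ k _
    have hmk : Function.Surjective mk := Ideal.Quotient.mk_surjective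
    have hle : Ideal.span {z} ≤ RingHom.ker π := by
      rw [Ideal.span_singleton_le_iff_mem]; exact hzK
    let π' : (B ⧸ Ideal.span {z}) →ₐ[k] A := Ideal.Quotient.liftₐ _ π hle
    have hπmk : ∀ b, π' (mk b) = π b := fun b => Ideal.Quotient.liftₐ_apply _ _ _ _
    have hπ'comp : π'.comp mk = π := AlgHom.ext hπmk
    have hπ' : Function.Surjective π' := by
      intro a
      obtain ⟨b, rfl⟩ := hπ a
      exact ⟨mk b, hπmk b⟩
    have hc' : RingHom.ker (α.comp π') ^ c = ⊥ := by
      have h1 : (RingHom.ker (α.comp π)).map mk = RingHom.ker (α.comp π') := by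
        apply le_antisymm
        · rw [Ideal.map_le_iff_le_comap]
          intro b hb
          rw [Ideal.mem_comap, RingHom.mem_ker, AlgHom.comp_apply, hπmk]
          exact hb
        · intro x hx
          obtain ⟨b, rfl⟩ := hmk x
          refine Ideal.mem_map_of_mem _ ?_
          rw [RingHom.mem_ker, AlgHom.comp_apply, hπmk] at hx
          exact hx
      rw [← h1, ← Ideal.map_pow, hc, Ideal.map_bot]
    have hfr' : finrank k (B ⧸ Ideal.span {z}) = finrank k A + s := by
      have := finrank_quotient_socle (α.comp π) hz0 hz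
      omega
    obtain ⟨l, hl⟩ := (LinearMap.toSpanSingleton k B z).exists_leftInverse_of_injective
      (LinearMap.ker_toSpanSingleton k hz0)
    have hlz : l z = 1 := by
      have := LinearMap.congr_fun hl 1
      simpa using this
    let q₂ : P →ₐ[k] (B ⧸ Ideal.span {z}) ⊗[k] A' :=
      (Algebra.TensorProduct.map mk (AlgHom.id k A')).comp q
    let D : SplitData q ((evL (α.comp π)).comp q) q₂ :=
      { j := TensorProduct.mk k B A' z
        g := (Algebra.TensorProduct.map mk (AlgHom.id k A')).toLinearMap
        inj := by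
          have h2 : ∀ y : A', (TensorProduct.lid k A') ((TensorProduct.map l LinearMap.id)
              (TensorProduct.mk k B A' z y)) = y := by
            intro y
            simp [hlz]
          exact Function.LeftInverse.injective (g := fun t => (TensorProduct.lid k A')
            ((TensorProduct.map l LinearMap.id) t)) h2
        surj := map_id_surjective (A' := A') mk hmk
        comp := by
          intro y
          have h3 : mk z = 0 := by
            rw [Ideal.Quotient.mkₐ_eq_mk, Ideal.Quotient.eq_zero_iff_mem]
            exact Ideal.mem_span_singleton_self z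
          show (Algebra.TensorProduct.map mk (AlgHom.id k A')) (z ⊗ₜ y) = 0
          rw [Algebra.TensorProduct.map_tmul, h3, TensorProduct.zero_tmul]
        hj := by
          intro p y
          exact (mul_socle (α.comp π) hz (q p) y).symm
        hg := by
          intro p y
          exact map_mul (Algebra.TensorProduct.map mk (AlgHom.id k A')) (q p) y }
    have h4 : (evL (α.comp π')).comp q₂ = (evL (α.comp π) : B ⊗[k] A' →ₐ[k] A').comp q := by
      have h5 : ((evL (α.comp π') : _ →ₐ[k] A').comp
          (Algebra.TensorProduct.map mk (AlgHom.id k A'))) = evL (α.comp π) := by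
        apply Algebra.TensorProduct.ext'
        intro b a
        simp [hπmk]
      rw [← h5]
      rfl
    have h6 : (Algebra.TensorProduct.map π' (AlgHom.id k A')).comp q₂ =
        (Algebra.TensorProduct.map π (AlgHom.id k A')).comp q := by
      have h7 : (Algebra.TensorProduct.map π' (AlgHom.id k A')).comp
          (Algebra.TensorProduct.map mk (AlgHom.id k A')) =
          Algebra.TensorProduct.map π (AlgHom.id k A') := by
        apply Algebra.TensorProduct.ext'
        intro b a
        simp [hπmk]
      rw [← h7]
      rfl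
    have h8 := ih (B ⧸ Ideal.span {z}) π' hπ' c hc' hfr' q₂
    rw [h4, h6] at h8
    have h9 := (D.le HD).trans ((Le.refl _).prod h8)
    refine h9.trans ?_
    refine Le.trans ?_ ((Le.refl _).prod (le_powH_succ _ s))
    refine Le.of_linear (((LinearMap.fst k (A ⊗[k] A') (Fin s → A')).comp
      (LinearMap.snd k A' _)).prod ((LinearMap.fst k A' _).prod
        ((LinearMap.snd k (A ⊗[k] A') (Fin s → A')).comp (LinearMap.snd k A' _)))) ?_ ?_
    · rintro ⟨x, y, f⟩
      exact ⟨(y, x, f), rfl⟩
    · intro p y
      rfl

end split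

end Pool.Agent.H15.CX
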