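import Pool.Agent.H15.CX.Limits

/-!
# A power saving for the defect of `Γ × Z_b`
-/

open TensorProduct Module Filter Topology

namespace Pool.Agent.H15.CX

open Pool.Agent.H12.Defect Pool.Agent.H15.Defect Pool.Agent.H15.ER
open Pool.Agent.H14.RF hiding tr

universe u

variable {k : Type u} [Field k]

/-- The cost of `A ⊗ Z_b` exceeds its degree by a smaller power. -/
def PSav (k : Type u) [Field k] (A : Type u) [CommRing A] [Algebra k A] : Prop :=
  ∃ C θ : ℝ, 0 ≤ C ∧ θ < 1 ∧ ∀ b : ℕ, ∃ N : ℕ, Dle k (A ⊗[k] ZZ k b) N ∧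
    (N : ℝ) ≤ finrank k A * ((b : ℝ) + 1) + C * ((b : ℝ) + 1) ^ θ

theorem pow_le_rr (D s n : ℕ) : D ^ n ≤ rr D s (n + 1) := by
  induction n with
  | zero => simp [rr]
  | succ n ih =>
    have h1 : rr D s (n + 1 + 1) = D * rr D s (n + 1) + s ^ (n + 1) := rfl
    rw [h1, pow_succ]
    have h2 := Nat.mul_le_mul_left D ih
    calc D ^ n * D = D * D ^ n := mul_comm _ _
      _ ≤ D * rr D s (n + 1) := h2
      _ ≤ _ := Nat.le_add_right _ _

theorem psav_numeric (a s : ℕ) (ha : 1 ≤ a) : ∃ C θ : ℝ, 0 ≤ C ∧ θ < 1 ∧ ∀ b : ℕ, ∃ n m : ℕ,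
    b ≤ m * rr (a + s) s n ∧
    (((a + s) ^ n * ((a + s) + m) : ℕ) : ℝ) ≤ a * ((b : ℝ) + 1) + C * ((b : ℝ) + 1) ^ θ := by
  set D : ℕ := a + s with hD
  have hD1 : 1 ≤ D := by omega
  set E : ℝ := (D : ℝ) + 1 with hE
  set q : ℝ := ((s : ℝ) + 1) / ((D : ℝ) + 1) with hq
  have hDr : (1 : ℝ) ≤ D := by exact_mod_cast hD1
  have hE1 : 1 < E := by rw [hE]; linarith
  have hsD : (s : ℝ) < D := by exact_mod_cast (by omega : s < D)
  have hq0 : 0 < q := by rw [hq]; positivity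
  have hq1 : q < 1 := by rw [hq, div_lt_one (by positivity)]; linarith
  have hlE : 0 < Real.log E := Real.log_pos hE1
  have hlq : Real.log q < 0 := Real.log_neg hq0 hq1
  set κ : ℝ := - Real.log q / (2 * Real.log E) with hκ
  have hκ0 : 0 < κ := by rw [hκ]; apply div_pos <;> linarith
  refine ⟨E * (D + 1) + D, max (1 / 2) (1 - κ), by positivity,
    max_lt (by norm_num) (by linarith), fun b => ?_⟩
  set β : ℝ := (b : ℝ) + 1 with hβ
  have hβ1 : 1 ≤ β := by rw [hβ]; linarith [Nat.cast_nonneg (α := ℝ) b]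
  have hβ0 : 0 < β := by linarith
  -- the choice of the level
  have hD2 : 1 < (D + 1) ^ 2 := by nlinarith
  set j : ℕ := Nat.log ((D + 1) ^ 2) (b + 1) with hj
  have hj1 : ((D + 1) ^ 2) ^ j ≤ b + 1 := Nat.pow_log_le_self _ (by omega)
  have hj2 : b + 1 < ((D + 1) ^ 2) ^ (j + 1) := Nat.lt_pow_succ_log_self hD2 _
  have hj1' : (E ^ 2) ^ j ≤ β := by
    have : (((D + 1) ^ 2) ^ j : ℕ) ≤ ((b + 1 : ℕ) : ℝ) := by exact_mod_cast hj1
    push_cast at this
    exact this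
  have hj2' : β ≤ (E ^ 2) ^ (j + 1) := by
    have : ((b + 1 : ℕ) : ℝ) ≤ (((D + 1) ^ 2) ^ (j + 1) : ℕ) := by exact_mod_cast hj2.le
    push_cast at this
    exact this
  have hEj : E ^ j ≤ β ^ ((1 : ℝ) / 2) := by
    have h1 : (E ^ j) ^ 2 ≤ β := by rw [← pow_mul, mul_comm, pow_mul]; exact hj1'
    have h2 := Real.rpow_le_rpow (by positivity) h1 (by norm_num : (0 : ℝ) ≤ 1 / 2)
    rwa [← Real.sqrt_eq_rpow, Real.sqrt_sq (by positivity)] at h2
  have hqj : q ^ (j + 1) ≤ β ^ (-κ) := by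
    have h1 : q = (E ^ 2) ^ (-κ) := by
      rw [← Real.rpow_natCast E 2, ← Real.rpow_mul (by positivity)]
      rw [Real.rpow_def_of_pos (by positivity)]
      have h2 : Real.log E * (((2 : ℕ) : ℝ) * -κ) = Real.log q := by
        rw [hκ]
        push_cast
        field_simp
      rw [h2, Real.exp_log hq0]
    have h3 : q ^ (j + 1) = ((E ^ 2) ^ (j + 1)) ^ (-κ) := by
      conv_lhs => rw [h1]
      rw [← Real.rpow_natCast ((E ^ 2) ^ (-κ)), ← Real.rpow_natCast (E ^ 2) (j + 1),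
        ← Real.rpow_mul (by positivity), ← Real.rpow_mul (by positivity), mul_comm]
    rw [h3]
    exact Real.rpow_le_rpow_of_nonpos hβ0 hj2' (by linarith)
  set r : ℕ := rr D s (j + 1) with hr
  have hrD : D ^ j ≤ r := pow_le_rr D s j
  have hr0 : 0 < r := lt_of_lt_of_le (Nat.pow_pos hD1) hrD
  have hr0' : (0 : ℝ) < r := by exact_mod_cast hr0
  refine ⟨j + 1, b / r + 1, ?_, ?_⟩
  · have := Nat.div_add_mod b r
    have h2 := Nat.mod_lt b hr0
    show b ≤ (b / r + 1) * r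
    nlinarith
  have h1 : (a : ℝ) * r + (s : ℝ) ^ (j + 1) = (D : ℝ) ^ (j + 1) := by
    have := rr_eq a s (j + 1)
    rw [← hD, ← hr] at this
    exact_mod_cast this
  have h2 : (s : ℝ) ^ (j + 1) ≤ q ^ (j + 1) * (D * r) := by
    have h3 : (s : ℝ) ≤ q * D := by
      rw [hq, div_mul_eq_mul_div, le_div_iff₀ (by positivity)]
      nlinarith
    have h4 : (s : ℝ) ^ (j + 1) ≤ (q * D) ^ (j + 1) := pow_le_pow_left₀ (Nat.cast_nonneg _) h3 _
    have h5 : (D : ℝ) ^ (j + 1) ≤ D * r := by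
      rw [pow_succ, mul_comm]
      have : (D : ℝ) ^ j ≤ r := by exact_mod_cast hrD
      gcongr
    calc (s : ℝ) ^ (j + 1) ≤ (q * D) ^ (j + 1) := h4
      _ = q ^ (j + 1) * D ^ (j + 1) := mul_pow _ _ _
      _ ≤ _ := by gcongr
  have h6 : (D : ℝ) ^ (j + 1) * (b / r) ≤ a * b + D * (q ^ (j + 1) * b) := by
    rw [mul_div_assoc', div_le_iff₀ hr0', ← h1]
    have hb0 : (0 : ℝ) ≤ b := Nat.cast_nonneg _
    calc ((a : ℝ) * r + (s : ℝ) ^ (j + 1)) * b ≤ (a * r + q ^ (j + 1) * (D * r)) * b := by gcongr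
      _ = _ := by ring
  have h7 : (((b / r + 1 : ℕ) : ℕ) : ℝ) ≤ b / r + 1 := by
    push_cast
    have := Nat.cast_div_le (α := ℝ) (m := b) (n := r)
    linarith
  have h8 : (D : ℝ) ^ (j + 1) ≤ E * β ^ ((1 : ℝ) / 2) := by
    calc (D : ℝ) ^ (j + 1) ≤ E ^ (j + 1) := pow_le_pow_left₀ (Nat.cast_nonneg _) (by rw [hE]; linarith) _
      _ = E * E ^ j := by rw [pow_succ, mul_comm]
      _ ≤ _ := by gcongr
  have h9 : β ^ ((1 : ℝ) / 2) ≤ β ^ (max (1 / 2) (1 - κ)) :=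
    Real.rpow_le_rpow_of_exponent_le hβ1 (le_max_left _ _)
  have h10 : q ^ (j + 1) * b ≤ β ^ (max (1 / 2) (1 - κ)) := by
    calc q ^ (j + 1) * b ≤ β ^ (-κ) * β := by
          apply mul_le_mul hqj _ (Nat.cast_nonneg _) (by positivity)
          rw [hβ]
          linarith
      _ = β ^ (1 - κ) := by
          rw [← Real.rpow_add_one hβ0.ne']
          congr 1
          ring
      _ ≤ _ := Real.rpow_le_rpow_of_exponent_le hβ1 (le_max_right _ _)
  set W : ℝ := β ^ (max (1 / 2) (1 - κ)) with hW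
  have hW0 : 0 < W := by rw [hW]; positivity
  have hDn : (0 : ℝ) ≤ (D : ℝ) ^ (j + 1) := by positivity
  have h11 : (((D ^ (j + 1) * (D + (b / r + 1)) : ℕ)) : ℝ) ≤
      (D : ℝ) ^ (j + 1) * (D + 1) + (D : ℝ) ^ (j + 1) * (b / r) := by
    rw [← mul_add]
    push_cast at h7 ⊢
    exact mul_le_mul_of_nonneg_left (by linarith) hDn
  refine h11.trans ?_
  have h12 : (D : ℝ) ^ (j + 1) * (D + 1) ≤ E * (D + 1) * W := by
    calc (D : ℝ) ^ (j + 1) * (D + 1) ≤ (E * W) * (D + 1) := by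
          gcongr
          exact h8.trans (by gcongr)
      _ = _ := by ring
  have h13 : (D : ℝ) * (q ^ (j + 1) * b) ≤ D * W := by gcongr
  have h14 : (a : ℝ) * b ≤ a * β := by
    rw [hβ]
    gcongr
    linarith
  calc (D : ℝ) ^ (j + 1) * (D + 1) + (D : ℝ) ^ (j + 1) * (b / r) ≤
        E * (D + 1) * W + (a * b + D * (q ^ (j + 1) * b)) := add_le_add h12 h6
    _ ≤ E * (D + 1) * W + (a * β + D * W) := by gcongr
    _ = _ := by ring

theorem psav_of_cover {A B : Type u} [CommRing A] [Algebra k A] [CommRing B] [Algebra k B]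
    [Module.Finite k B] {α : A →ₐ[k] k}
    (π : B →ₐ[k] A) (hπ : Function.Surjective π) {c : ℕ}
    (hc : RingHom.ker (α.comp π) ^ c = ⊥) (hB : Dle k B (finrank k B)) : PSav k A := by
  have hfA : Module.Finite k A := Module.Finite.of_surjective π.toLinearMap hπ
  have hnt : Nontrivial A := α.toRingHom.domain_nontrivial
  have ha1 : 1 ≤ finrank k A := Module.finrank_pos
  have hle : finrank k A ≤ finrank k B := LinearMap.finrank_le_finrank_of_surjective
    (f := π.toLinearMap) hπ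
  obtain ⟨s, hs⟩ := Nat.exists_eq_add_of_le hle
  obtain ⟨C, θ, hC, hθ, h⟩ := psav_numeric (finrank k A) s ha1
  refine ⟨C, θ, hC, hθ, fun b => ?_⟩
  obtain ⟨n, m, hb, hle'⟩ := h b
  have h1 := dle_rec π hπ hc hs hs (hs ▸ hB) m n _ _ _ rfl rfl rfl
  exact ⟨_, dle_tensor_ZZ (b := b) hb h1, hle'⟩

theorem PSav.of_equiv {A A' : Type u} [CommRing A] [Algebra k A] [CommRing A'] [Algebra k A']
    (h : PSav k A) (e : A ≃ₐ[k] A') : PSav k A' := by
  obtain ⟨C, θ, hC, hθ, h⟩ := h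
  refine ⟨C, θ, hC, hθ, fun b => ?_⟩
  obtain ⟨N, hN, hle⟩ := h b
  refine ⟨N, hN.of_equiv (Algebra.TensorProduct.congr e AlgEquiv.refl), ?_⟩
  rwa [← LinearEquiv.finrank_eq e.toLinearEquiv]

theorem PSav.prod {A A' : Type u} [CommRing A] [Algebra k A] [CommRing A'] [Algebra k A']
    [Module.Finite k A] [Module.Finite k A'] (h : PSav k A) (h' : PSav k A') :
    PSav k (A × A') := by
  obtain ⟨C, θ, hC, hθ, h⟩ := h
  obtain ⟨C', θ', hC', hθ', h'⟩ := h'
  refine ⟨C + C', max θ θ', by positivity, max_lt hθ hθ', fun b => ?_⟩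
  obtain ⟨N, hN, hle⟩ := h b
  obtain ⟨N', hN', hle'⟩ := h' b
  refine ⟨N + N', ?_, ?_⟩
  · have e1 : Dle k (ZZ k b ⊗[k] A) N := hN.of_equiv (Algebra.TensorProduct.comm k A (ZZ k b))
    have e2 : Dle k (ZZ k b ⊗[k] A') N' := hN'.of_equiv (Algebra.TensorProduct.comm k A' (ZZ k b))
    have e3 : Dle k (ZZ k b ⊗[k] (A × A')) (N + N') :=
      (e1.prod e2).of_equiv (Algebra.TensorProduct.prodRight k k (ZZ k b) A A').symm
    exact e3.of_equiv (Algebra.TensorProduct.comm k (ZZ k b) (A × A'))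
  · rw [Module.finrank_prod]
    push_cast
    have hb1 : (1 : ℝ) ≤ (b : ℝ) + 1 := by linarith [Nat.cast_nonneg (α := ℝ) b]
    have h1 : ((b : ℝ) + 1) ^ θ ≤ ((b : ℝ) + 1) ^ (max θ θ') :=
      Real.rpow_le_rpow_of_exponent_le hb1 (le_max_left _ _)
    have h2 : ((b : ℝ) + 1) ^ θ' ≤ ((b : ℝ) + 1) ^ (max θ θ') :=
      Real.rpow_le_rpow_of_exponent_le hb1 (le_max_right _ _)
    have h3 := mul_le_mul_of_nonneg_left h1 hC
    have h4 := mul_le_mul_of_nonneg_left h2 hC'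
    calc (N : ℝ) + N' ≤ _ := add_le_add hle hle'
      _ ≤ (finrank k A * ((b : ℝ) + 1) + C * ((b : ℝ) + 1) ^ (max θ θ')) +
          (finrank k A' * ((b : ℝ) + 1) + C' * ((b : ℝ) + 1) ^ (max θ θ')) := by linarith
      _ = _ := by ring

theorem psav [IsAlgClosed k] : ∀ (n : ℕ) (A : Type u) [CommRing A] [Algebra k A]
    [Module.Finite k A] [Nontrivial A], finrank k A = n → PSav k A := by
  intro n
  induction n using Nat.strong_induction_on with
  | _ n ih =>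
    intro A _ _ _ _ hn
    obtain ⟨α⟩ := exists_point (k := k) (A := A)
    rcases local_or_split α with ⟨c, hc⟩ | ⟨A₁, A₂, _, _, _, _, _, _, _, _, ⟨E⟩⟩
    · obtain ⟨N, B, i1, i2, hB, ⟨g, hg⟩, -⟩ := exists_dle (k := k) A
      obtain ⟨B', j1, j2, π', c', hB', hπ', hc'⟩ := exists_local_cover α hc _ B hB rfl g hg
      have := IsSmoothable.finite hB'
      exact psav_of_cover π' hπ' hc' (IsSmoothable.dle hB')
    · have hfr : finrank k A = finrank k A₁ + finrank k A₂ := by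
        rw [← Module.finrank_prod]
        exact LinearEquiv.finrank_eq E.toLinearEquiv
      have hp1 := Module.finrank_pos (R := k) (M := A₁)
      have hp2 := Module.finrank_pos (R := k) (M := A₂)
      exact ((ih _ (by omega) A₁ rfl).prod (ih _ (by omega) A₂ rfl)).of_equiv E.symm

/-- The quantitative form of catalytic exactness. -/
theorem quantitative [IsAlgClosed k] (A : Type u) [CommRing A] [Algebra k A]
    [Module.Finite k A] [Nontrivial A] : ∃ C θ : ℝ, θ < 1 ∧ ∀ b : ℕ,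
      ((defect k (A ⊗[k] ZZ k b)).toNat : ℝ) ≤ C * ((b : ℝ) + 1) ^ θ ∧
      Lam k (A ⊗[k] ZZ k b) ≤ finrank k A * ((b : ℝ) + 1) + C * ((b : ℝ) + 1) ^ θ ∧
      Lam k (A × ZZ k b) ≤ finrank k A + ((b : ℝ) + 1) + C * ((b : ℝ) + 1) ^ (θ - 1) := by
  obtain ⟨C, θ, hC, hθ, h⟩ := psav (k := k) _ A rfl
  obtain ⟨D, hD⟩ := exists_dle (k := k) A
  set C' : ℝ := C + D * (4 * (D : ℝ) + 1) ^ (1 - θ) with hC'
  have h0 : (0 : ℝ) ≤ D * (4 * (D : ℝ) + 1) ^ (1 - θ) := by positivity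
  have hCC : C ≤ C' := by rw [hC']; linarith
  refine ⟨C', θ, hθ, fun b => ?_⟩
  obtain ⟨N, hN, hle⟩ := h b
  have hb0 : (0 : ℝ) < (b : ℝ) + 1 := by positivity
  have hbθ : (0 : ℝ) ≤ ((b : ℝ) + 1) ^ θ := by positivity
  have hle' : (N : ℝ) ≤ finrank k A * ((b : ℝ) + 1) + C' * ((b : ℝ) + 1) ^ θ := by
    have := mul_le_mul_of_nonneg_right hCC hbθ
    linarith
  refine ⟨?_, (Lam_le_of_dle hN).trans hle', ?_⟩
  · have h1 := (defect_eq hN).2.2
    rw [finrank_tensor_ZZ] at h1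
    have h2 : ((finrank k A * (b + 1) + (defect k (A ⊗[k] ZZ k b)).toNat : ℕ) : ℝ) ≤ N := by
      exact_mod_cast h1
    push_cast at h2
    linarith
  · rcases Nat.lt_or_ge (b + 1) (4 * D) with hbD | hbD
    · have h1 : Lam k (A × ZZ k b) ≤ ((D + (b + 1) : ℕ) : ℝ) :=
        Lam_le_of_dle (hD.prod (dle_ZZ k b))
      push_cast at h1
      have h2 : (b : ℝ) + 1 ≤ 4 * (D : ℝ) + 1 := by
        have : ((b + 1 : ℕ) : ℝ) ≤ ((4 * D : ℕ) : ℝ) := by exact_mod_cast hbD.le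
        push_cast at this
        linarith
      have h3 : (4 * (D : ℝ) + 1) ^ (θ - 1) ≤ ((b : ℝ) + 1) ^ (θ - 1) :=
        Real.rpow_le_rpow_of_nonpos hb0 h2 (by linarith)
      have h4 : (4 * (D : ℝ) + 1) ^ (1 - θ) * (4 * (D : ℝ) + 1) ^ (θ - 1) = 1 := by
        rw [← Real.rpow_add (by positivity)]
        simp
      have h5 : (D : ℝ) ≤ D * (4 * (D : ℝ) + 1) ^ (1 - θ) * ((b : ℝ) + 1) ^ (θ - 1) := by
        calc (D : ℝ) = D * ((4 * (D : ℝ) + 1) ^ (1 - θ) * (4 * (D : ℝ) + 1) ^ (θ - 1)) := by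
              rw [h4, mul_one]
          _ = D * (4 * (D : ℝ) + 1) ^ (1 - θ) * (4 * (D : ℝ) + 1) ^ (θ - 1) := by ring
          _ ≤ _ := by gcongr
      have h6 : (0 : ℝ) ≤ C * ((b : ℝ) + 1) ^ (θ - 1) := by positivity
      have h7 : (0 : ℝ) ≤ (finrank k A : ℝ) := Nat.cast_nonneg _
      rw [hC', add_mul]
      linarith
    · have h1 := bd_union hN (dle_ZZ k b) hD (Nat.succ_pos b) hbD
      have h2 := Lam_le_of_bd (by positivity) h1
      push_cast at h2
      have h3 : (N : ℝ) / ((b : ℝ) + 1) ≤ finrank k A + C' * ((b : ℝ) + 1) ^ (θ - 1) := by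
        rw [div_le_iff₀ hb0]
        refine hle'.trans (le_of_eq ?_)
        have h4 : ((b : ℝ) + 1) ^ θ = ((b : ℝ) + 1) ^ (θ - 1) * ((b : ℝ) + 1) := by
          rw [← Real.rpow_add_one hb0.ne']
          congr 1
          ring
        rw [h4]
        ring
      linarith

end Pool.Agent.H15.CX
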