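import Pool.Agent.H15.CX.Recur
import Pool.Agent.H15.CX.Cover

/-!
# The asymptotic cost of `A ⊗ Z_b`
-/

open TensorProduct Module Filter Topology

namespace Pool.Agent.H15.CX

open Pool.Agent.H12.Defect Pool.Agent.H15.Defect Pool.Agent.H15.ER
open Pool.Agent.H14.RF hiding tr

universe u

variable {k : Type u} [Field k]

/-- The cost of `A ⊗ Z_b` is asymptotically its degree. -/
def Asy (k : Type u) [Field k] (A : Type u) [CommRing A] [Algebra k A] : Prop :=
  ∀ η : ℝ, 0 < η → ∃ b₀ : ℕ, ∀ b, b₀ ≤ b → ∃ N : ℕ, Dle k (A ⊗[k] ZZ k b) N ∧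
    (N : ℝ) ≤ (1 + η) * finrank k A * (b + 1)

theorem exists_level (a s : ℕ) (ha : 1 ≤ a) {η : ℝ} (hη : 0 < η) :
    ∃ n : ℕ, 0 < rr (a + s) s n ∧
      ((a + s : ℕ) : ℝ) ^ n ≤ (1 + η) * (a * rr (a + s) s n) := by
  have hD0 : (0 : ℝ) < ((a + s : ℕ) : ℝ) := by exact_mod_cast (by omega : 0 < a + s)
  have hq1 : (s : ℝ) / ((a + s : ℕ) : ℝ) < 1 := by
    rw [div_lt_one hD0]
    exact_mod_cast (by omega : s < a + s)
  have h1 := tendsto_pow_atTop_nhds_zero_of_lt_one
    (div_nonneg (Nat.cast_nonneg s) hD0.le) hq1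
  have h2 : 0 < η / (1 + η) := by positivity
  obtain ⟨n, hn1, hn2⟩ := ((h1.eventually (gt_mem_nhds h2)).and
    (Filter.eventually_ge_atTop 1)).exists
  refine ⟨n, ?_, ?_⟩
  · obtain ⟨m, rfl⟩ := Nat.exists_eq_add_of_le' hn2
    have h3 := rr_eq a s (m + 1)
    have h4 : s ^ (m + 1) < (a + s) ^ (m + 1) := Nat.pow_lt_pow_left (by omega) (by omega)
    by_contra hcon
    have h5 : rr (a + s) s (m + 1) = 0 := by omega
    rw [h5] at h3
    omega
  · have h3 : ((a : ℝ) * rr (a + s) s n) + (s : ℝ) ^ n = ((a + s : ℕ) : ℝ) ^ n := by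
      exact_mod_cast rr_eq a s n
    have h4 : (s : ℝ) ^ n < η / (1 + η) * ((a + s : ℕ) : ℝ) ^ n := by
      have h5 : (s : ℝ) ^ n / ((a + s : ℕ) : ℝ) ^ n < η / (1 + η) := by
        rw [← div_pow]; exact hn1
      rwa [div_lt_iff₀ (by positivity)] at h5
    have h6 : (a : ℝ) * rr (a + s) s n = ((a + s : ℕ) : ℝ) ^ n - (s : ℝ) ^ n := by linarith
    rw [h6]
    have h7 : (1 + η) * (s : ℝ) ^ n < η * ((a + s : ℕ) : ℝ) ^ n := by
      have h8 : (1 + η) * (s : ℝ) ^ n < (1 + η) * (η / (1 + η) * ((a + s : ℕ) : ℝ) ^ n) := by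
        gcongr
      have h9 : (1 + η) * (η / (1 + η) * ((a + s : ℕ) : ℝ) ^ n) = η * ((a + s : ℕ) : ℝ) ^ n := by
        field_simp
      rwa [h9] at h8
    nlinarith

theorem asy_of_cover {A B : Type u} [CommRing A] [Algebra k A] [CommRing B] [Algebra k B]
    [Module.Finite k B] {α : A →ₐ[k] k}
    (π : B →ₐ[k] A) (hπ : Function.Surjective π) {c : ℕ}
    (hc : RingHom.ker (α.comp π) ^ c = ⊥) (hB : Dle k B (finrank k B)) : Asy k A := by
  intro η hη
  have hfA : Module.Finite k A := Module.Finite.of_surjective π.toLinearMap hπ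
  have hnt : Nontrivial A := α.toRingHom.domain_nontrivial
  have ha1 : 1 ≤ finrank k A := Module.finrank_pos
  have hle : finrank k A ≤ finrank k B := LinearMap.finrank_le_finrank_of_surjective
    (f := π.toLinearMap) hπ
  obtain ⟨s, hs⟩ := Nat.exists_eq_add_of_le hle
  obtain ⟨n, hr, hn⟩ := exists_level (finrank k A) s ha1 (half_pos hη)
  set a := finrank k A with haa
  set D := a + s with hDD
  set r := rr D s n with hrr
  obtain ⟨b₀, hb₀⟩ := exists_nat_ge (((D : ℝ) ^ n * (D + 1)) / (η / 2))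
  refine ⟨b₀, fun b hb => ?_⟩
  let m := b / r + 1
  have hbu : b ≤ m * r := by
    have := Nat.div_add_mod b r
    have h2 := Nat.mod_lt b hr
    show b ≤ (b / r + 1) * r
    nlinarith
  have h1 := dle_rec π hπ hc hs hs (hs ▸ hB) m n _ _ _ rfl rfl rfl
  have h2 := dle_tensor_ZZ (b := b) hbu h1
  refine ⟨_, h2, ?_⟩
  push_cast
  have hr0 : (0 : ℝ) < r := by exact_mod_cast hr
  have h3 : ((m : ℕ) : ℝ) ≤ b / r + 1 := by
    show ((b / r + 1 : ℕ) : ℝ) ≤ _
    push_cast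
    have := Nat.cast_div_le (α := ℝ) (m := b) (n := r)
    linarith
  have ha0 : (1 : ℝ) ≤ a := by exact_mod_cast ha1
  have hb0 : (b₀ : ℝ) ≤ b := by exact_mod_cast hb
  have hDn : (0 : ℝ) ≤ (D : ℝ) ^ n := by positivity
  have h4 : (D : ℝ) ^ n * (b / r) ≤ (1 + η / 2) * a * b := by
    rw [mul_div_assoc']
    rw [div_le_iff₀ hr0]
    calc (D : ℝ) ^ n * b ≤ ((1 + η / 2) * (a * r)) * b := by gcongr
      _ = _ := by ring
  have h5 : (D : ℝ) ^ n * (D + 1) ≤ η / 2 * (a * (b + 1)) := by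
    have h6 : ((D : ℝ) ^ n * (D + 1)) ≤ (η / 2) * b₀ := by
      rw [div_le_iff₀ (by positivity)] at hb₀
      linarith
    calc (D : ℝ) ^ n * (D + 1) ≤ (η / 2) * b₀ := h6
      _ ≤ (η / 2) * (1 * (b + 1)) := by gcongr; linarith
      _ ≤ η / 2 * (a * (b + 1)) := by gcongr
  have h7 : (D : ℝ) ^ n * (D + m) ≤ (D : ℝ) ^ n * (D + 1) + (D : ℝ) ^ n * (b / r) := by
    rw [← mul_add]
    exact mul_le_mul_of_nonneg_left (by linarith) hDn
  refine h7.trans ?_
  nlinarith [mul_nonneg (mul_nonneg hη.le (by linarith : (0:ℝ) ≤ a)) (Nat.cast_nonneg (α := ℝ) b)]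

theorem Asy.of_equiv {A A' : Type u} [CommRing A] [Algebra k A] [CommRing A'] [Algebra k A']
    (h : Asy k A) (e : A ≃ₐ[k] A') : Asy k A' := by
  intro η hη
  obtain ⟨b₀, hb⟩ := h η hη
  refine ⟨b₀, fun b hb' => ?_⟩
  obtain ⟨N, hN, hle⟩ := hb b hb'
  refine ⟨N, hN.of_equiv (Algebra.TensorProduct.congr e AlgEquiv.refl), ?_⟩
  rwa [← LinearEquiv.finrank_eq e.toLinearEquiv]

theorem Asy.prod {A A' : Type u} [CommRing A] [Algebra k A] [CommRing A'] [Algebra k A']
    [Module.Finite k A] [Module.Finite k A'] (h : Asy k A) (h' : Asy k A') : Asy k (A × A') := by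
  intro η hη
  obtain ⟨b₀, hb⟩ := h η hη
  obtain ⟨b₀', hb'⟩ := h' η hη
  refine ⟨max b₀ b₀', fun b hbb => ?_⟩
  obtain ⟨N, hN, hle⟩ := hb b ((le_max_left _ _).trans hbb)
  obtain ⟨N', hN', hle'⟩ := hb' b ((le_max_right _ _).trans hbb)
  refine ⟨N + N', ?_, ?_⟩
  · have e1 : Dle k (ZZ k b ⊗[k] A) N := hN.of_equiv (Algebra.TensorProduct.comm k A (ZZ k b))
    have e2 : Dle k (ZZ k b ⊗[k] A') N' := hN'.of_equiv (Algebra.TensorProduct.comm k A' (ZZ k b))
    have e3 : Dle k (ZZ k b ⊗[k] (A × A')) (N + N') :=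
      (e1.prod e2).of_equiv (Algebra.TensorProduct.prodRight k k (ZZ k b) A A').symm
    exact e3.of_equiv (Algebra.TensorProduct.comm k (ZZ k b) (A × A'))
  · rw [Module.finrank_prod]
    push_cast
    calc (N : ℝ) + N' ≤ _ := add_le_add hle hle'
      _ = _ := by ring

/-- Every finite scheme. -/
theorem asy [IsAlgClosed k] : ∀ (n : ℕ) (A : Type u) [CommRing A] [Algebra k A]
    [Module.Finite k A] [Nontrivial A], finrank k A = n → Asy k A := by
  intro n
  induction n using Nat.strong_induction_on with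
  | _ n ih =>
    intro A _ _ _ _ hn
    obtain ⟨α⟩ := exists_point (k := k) (A := A)
    rcases local_or_split α with ⟨c, hc⟩ | ⟨A₁, A₂, _, _, _, _, _, _, _, _, ⟨E⟩⟩
    · obtain ⟨N, B, i1, i2, hB, ⟨g, hg⟩, -⟩ := exists_dle (k := k) A
      obtain ⟨B', j1, j2, π', c', hB', hπ', hc'⟩ := exists_local_cover α hc _ B hB rfl g hg
      have := IsSmoothable.finite hB'
      exact asy_of_cover π' hπ' hc' (IsSmoothable.dle hB')
    · have hfr : finrank k A = finrank k A₁ + finrank k A₂ := by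
        rw [← Module.finrank_prod]
        exact LinearEquiv.finrank_eq E.toLinearEquiv
      have hp1 := Module.finrank_pos (R := k) (M := A₁)
      have hp2 := Module.finrank_pos (R := k) (M := A₂)
      exact ((ih _ (by omega) A₁ rfl).prod (ih _ (by omega) A₂ rfl)).of_equiv E.symm

/-- Every finite scheme. -/
theorem asy_all [IsAlgClosed k] (A : Type u) [CommRing A] [Algebra k A] [Module.Finite k A]
    [Nontrivial A] : Asy k A := asy _ A rfl

end Pool.Agent.H15.CX
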