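import Pool.Agent.H15.CX.Step
import Pool.Agent.H15.CX.Dual

/-!
# The recursion
-/

open TensorProduct Module

namespace Pool.Agent.H15.CX

open Pool.Agent.H15.Defect

universe u

variable {k A : Type u} [Field k] [CommRing A] [Algebra k A]

section base

variable (α : A →ₐ[k] k) (m : ℕ)

/-- auxiliary: the map of the start of the recursion -/
def bmap : DualNumber (A × (Fin m → k)) →ₗ[k] Idz (guv α 0 m) where
  toFun z := ((z.fst.1, (0, fun i => z.snd.2 i - α z.snd.1)) : A × ((Fin 0 → A) × (Fin m → k)))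
  map_add' := by
    intro z w
    apply Idz.ext'
    · rfl
    · apply Prod.ext
      · exact Subsingleton.elim _ _
      · funext i
        show (z.snd + w.snd).2 i - α (z.snd + w.snd).1 =
          (z.snd.2 i - α z.snd.1) + (w.snd.2 i - α w.snd.1)
        rw [Prod.fst_add, Prod.snd_add, map_add, Pi.add_apply]
        ring
  map_smul' := by
    intro c z
    apply Idz.ext'
    · rfl
    · apply Prod.ext
      · exact Subsingleton.elim _ _
      · funext i
        show (c • z.snd).2 i - α (c • z.snd).1 = c * (z.snd.2 i - α z.snd.1)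
        rw [Prod.smul_fst, Prod.smul_snd, map_smul, Pi.smul_apply, smul_eq_mul, smul_eq_mul]
        ring

theorem bmap_fst (z : DualNumber (A × (Fin m → k))) : (bmap α m z).1 = z.fst.1 := rfl

theorem bmap_snd (z : DualNumber (A × (Fin m → k))) (i : Fin m) :
    (bmap α m z).2.2 i = z.snd.2 i - α z.snd.1 := rfl

/-- The start of the recursion. -/
theorem dle_base {D : ℕ} (hA : Dle k A D) : Dle k (Idz (guv α 0 m)) (D + m) := by
  have hE : Dle k (A × (Fin m → k)) (D + m) := by
    have h1 := (dle_self k).pi m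
    rw [mul_one] at h1
    exact hA.prod h1
  let S : Subalgebra k (DualNumber (A × (Fin m → k))) :=
    { carrier := {z | ∀ i, z.fst.2 i = α z.fst.1}
      mul_mem' := by
        intro z w hz hw i
        rw [TrivSqZeroExt.fst_mul, Prod.fst_mul, Prod.snd_mul, Pi.mul_apply, map_mul, hz i, hw i]
      add_mem' := by
        intro z w hz hw i
        rw [TrivSqZeroExt.fst_add, Prod.fst_add, Prod.snd_add, Pi.add_apply, map_add, hz i, hw i]
      algebraMap_mem' := by
        intro r i
        rw [Algebra.algebraMap_eq_smul_one, TrivSqZeroExt.fst_smul, TrivSqZeroExt.fst_one,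
          Prod.smul_fst, Prod.smul_snd, Prod.fst_one, Prod.snd_one, map_smul, map_one,
          Pi.smul_apply, Pi.one_apply] }
  have hS : ∀ z, z ∈ S ↔ ∀ i, z.fst.2 i = α z.fst.1 := fun z => Iff.rfl
  have heps : (DualNumber.eps : DualNumber (A × (Fin m → k))) ∈ S := by
    rw [hS]
    intro i
    rw [DualNumber.fst_eps]
    simp
  let ψ : S →ₐ[k] Idz (guv α 0 m) := AlgHom.ofLinearMap ((bmap α m).comp S.val.toLinearMap)
    (by
      apply Idz.ext'
      · rfl
      · apply Prod.ext
        · exact Subsingleton.elim _ _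
        · funext i
          show (0 : k) - α 0 = 0
          rw [map_zero, sub_zero])
    (by
      rintro ⟨z, hz⟩ ⟨w, hw⟩
      show bmap α m (z * w) = bmap α m z * bmap α m w
      apply Idz.ext'
      · rfl
      · apply Prod.ext
        · exact Subsingleton.elim _ _
        · funext i
          have h3 : (z * w).snd = z.fst * w.snd + w.fst * z.snd := by
            rw [TrivSqZeroExt.snd_mul]
            simp [mul_comm]
          rw [bmap_snd, h3]
          show (z.fst.2 i * w.snd.2 i + w.fst.2 i * z.snd.2 i) -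
            α (z.fst.1 * w.snd.1 + w.fst.1 * z.snd.1) =
            α z.fst.1 * (w.snd.2 i - α w.snd.1) + α w.fst.1 * (z.snd.2 i - α z.snd.1)
          rw [map_add, map_mul, map_mul, hz i, hw i]
          ring)
  have hψ : ∀ z : S, ψ z = bmap α m z.1 := fun _ => rfl
  refine dle_of_dual hE S heps ψ ?_ ?_
  · intro x
    let z : DualNumber (A × (Fin m → k)) := TrivSqZeroExt.inl (x.1, fun _ => α x.1) +
      TrivSqZeroExt.inr (0, x.2.2)
    have hz1 : z.fst = (x.1, fun _ => α x.1) := by
      rw [TrivSqZeroExt.fst_add, TrivSqZeroExt.fst_inl, TrivSqZeroExt.fst_inr, add_zero]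
    have hz2 : z.snd = (0, x.2.2) := by
      rw [TrivSqZeroExt.snd_add, TrivSqZeroExt.snd_inl, TrivSqZeroExt.snd_inr, zero_add]
    refine ⟨⟨z, by rw [hS, hz1]; exact fun _ => rfl⟩, ?_⟩
    rw [hψ]
    apply Idz.ext'
    · rw [bmap_fst, hz1]
    · apply Prod.ext
      · exact Subsingleton.elim _ _
      · funext i
        rw [bmap_snd, hz2, map_zero, sub_zero]
  · rw [hψ]
    apply Idz.ext'
    · rfl
    · apply Prod.ext
      · exact Subsingleton.elim _ _
      · funext i
        rw [bmap_snd, DualNumber.snd_eps]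
        show (1 : k) - α 1 = 0
        rw [map_one, sub_self]

end base

section recursion

/-- The numbers `(D ^ n - s ^ n) / (D - s)`. -/
def rr (D s : ℕ) : ℕ → ℕ
  | 0 => 0
  | n + 1 => D * rr D s n + s ^ n

theorem rr_eq (a s : ℕ) (n : ℕ) : a * rr (a + s) s n + s ^ n = (a + s) ^ n := by
  induction n with
  | zero => simp [rr]
  | succ n ih =>
    rw [rr, pow_succ (a + s) n, ← ih]
    ring

/-- The recursion. -/
theorem dle_rec {B : Type u} [CommRing B] [Algebra k B] [Module.Finite k B] {α : A →ₐ[k] k}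
    (π : B →ₐ[k] A) (hπ : Function.Surjective π) {c D s : ℕ}
    (hc : RingHom.ker (α.comp π) ^ c = ⊥) (hD : finrank k B = D)
    (hs : finrank k B = finrank k A + s) (hB : Dle k B D) (m : ℕ) (n : ℕ) :
    ∀ u v N : ℕ, u = m * rr D s n → v = m * s ^ n → N = D ^ n * (D + m) →
      Dle k (Idz (guv α u v)) N := by
  induction n with
  | zero =>
    intro u v N hu hv hN
    have hu' : u = 0 := by rw [hu]; rfl
    have hv' : v = m := by rw [hv, pow_zero, mul_one]
    have hN' : N = D + m := by rw [hN, pow_zero, one_mul]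
    subst hu' hv' hN'
    exact dle_base α v (hB.of_surjective π hπ)
  | succ n ih =>
    intro u v N hu hv hN
    have h1 := ih _ _ _ rfl rfl rfl
    have h2 := step (t_dual k) π hπ hc hD hs hB h1
    have hu' : u = D * (m * rr D s n) + m * s ^ n := by
      rw [hu, rr]
      ring
    have hv' : v = s * (m * s ^ n) := by
      rw [hv]
      ring
    have hN' : N = D * (D ^ n * (D + m)) := by
      rw [hN]
      ring
    subst hu' hv' hN'
    exact h2

end recursion

section tensor

/-- The coordinate ring `k[y_1, …, y_b]/(y_1, …, y_b)^2`. -/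
abbrev ZZ (k : Type u) [Field k] (b : ℕ) : Type u := TrivSqZeroExt k (Fin b → k)

/-- the generators -/
def yy (k : Type u) [Field k] (b : ℕ) (i : Fin b) : ZZ k b := TrivSqZeroExt.inr (Pi.single i 1)

theorem yy_mul (b : ℕ) (i j : Fin b) : yy k b i * yy k b j = 0 :=
  TrivSqZeroExt.inr_mul_inr _ _ _

theorem eq_sum_yy (b : ℕ) (z : ZZ k b) : z = z.fst • 1 + ∑ i, z.snd i • yy k b i := by
  apply TrivSqZeroExt.ext
  · rw [TrivSqZeroExt.fst_add, TrivSqZeroExt.fst_smul, TrivSqZeroExt.fst_one,
      TrivSqZeroExt.fst_sum]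
    simp [yy]
  · rw [TrivSqZeroExt.snd_add, TrivSqZeroExt.snd_smul, TrivSqZeroExt.snd_one,
      TrivSqZeroExt.snd_sum]
    funext j
    simp [yy, Pi.single_apply]

variable {α : A →ₐ[k] k} {u v b : ℕ}

/-- The map from the idealization to the tensor product. -/
noncomputable def tmap (hb : b ≤ u) : Idz (guv α u v) →ₗ[k] A ⊗[k] ZZ k b where
  toFun x := x.1 ⊗ₜ[k] 1 + ∑ i : Fin b, x.2.1 (Fin.castLE hb i) ⊗ₜ[k] yy k b i
  map_add' := by
    intro x y
    rw [Idz.add_fst, Idz.add_snd, TensorProduct.add_tmul]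
    simp only [Prod.fst_add, Pi.add_apply, TensorProduct.add_tmul, Finset.sum_add_distrib]
    abel
  map_smul' := by
    intro c x
    rw [Idz.smul_fst, Idz.smul_snd, ← TensorProduct.smul_tmul']
    simp only [Prod.smul_fst, Pi.smul_apply, ← TensorProduct.smul_tmul', RingHom.id_apply,
      smul_add, Finset.smul_sum]

theorem tmap_apply (hb : b ≤ u) (x : Idz (guv α u v)) : tmap hb x =
    x.1 ⊗ₜ[k] 1 + ∑ i : Fin b, x.2.1 (Fin.castLE hb i) ⊗ₜ[k] yy k b i := rfl

theorem tmap_mul (hb : b ≤ u) (x y : Idz (guv α u v)) : tmap hb (x * y) =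
    tmap hb x * tmap hb y := by
  have h0 : (∑ i : Fin b, x.2.1 (Fin.castLE hb i) ⊗ₜ[k] yy k b i) *
      (∑ i : Fin b, y.2.1 (Fin.castLE hb i) ⊗ₜ[k] yy k b i) = 0 := by
    rw [Finset.sum_mul_sum]
    refine Finset.sum_eq_zero fun i _ => Finset.sum_eq_zero fun j _ => ?_
    rw [Algebra.TensorProduct.tmul_mul_tmul, yy_mul, TensorProduct.tmul_zero]
  have h1 : ∀ (p : A) (f : Fin u → A), (p ⊗ₜ[k] (1 : ZZ k b)) *
      (∑ i : Fin b, f (Fin.castLE hb i) ⊗ₜ[k] yy k b i) =
      ∑ i : Fin b, (p * f (Fin.castLE hb i)) ⊗ₜ[k] yy k b i := by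
    intro p f
    rw [Finset.mul_sum]
    refine Finset.sum_congr rfl fun i _ => ?_
    rw [Algebra.TensorProduct.tmul_mul_tmul, one_mul]
  have h2 : ∀ i : Fin b, (x * y).2.1 (Fin.castLE hb i) =
      x.1 * y.2.1 (Fin.castLE hb i) + y.1 * x.2.1 (Fin.castLE hb i) := fun i => rfl
  rw [tmap_apply, tmap_apply, tmap_apply, add_mul, mul_add, mul_add, h0, add_zero, h1,
    mul_comm (∑ i : Fin b, x.2.1 (Fin.castLE hb i) ⊗ₜ[k] yy k b i), h1,
    Algebra.TensorProduct.tmul_mul_tmul, mul_one, add_assoc, Idz.mul_fst]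
  congr 1
  rw [← Finset.sum_add_distrib]
  refine Finset.sum_congr rfl fun i _ => ?_
  rw [h2, TensorProduct.add_tmul]

theorem tmap_surjective (hb : b ≤ u) :
    Function.Surjective (tmap (α := α) (u := u) (v := v) hb) := by
  intro t
  induction t using TensorProduct.induction_on with
  | zero => exact ⟨0, map_zero _⟩
  | add x y hx hy =>
    obtain ⟨x', rfl⟩ := hx
    obtain ⟨y', rfl⟩ := hy
    exact ⟨x' + y', map_add _ _ _⟩
  | tmul a z =>
    let x : Idz (guv α u v) := ((z.fst • a, (fun j : Fin u => if h : (j : ℕ) < b then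
      z.snd ⟨j, h⟩ • a else 0, 0)) : A × ((Fin u → A) × (Fin v → k)))
    refine ⟨x, ?_⟩
    have h1 : x.1 = z.fst • a := rfl
    have h2 : ∀ i : Fin b, x.2.1 (Fin.castLE hb i) = z.snd i • a := by
      intro i
      show (if h : (i : ℕ) < b then z.snd ⟨i, h⟩ • a else 0) = _
      rw [dif_pos i.2]
    rw [tmap_apply, h1]
    simp only [h2]
    conv_rhs => rw [eq_sum_yy b z, TensorProduct.tmul_add, TensorProduct.tmul_sum]
    rw [TensorProduct.smul_tmul]
    congr 1
    refine Finset.sum_congr rfl fun i _ => ?_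
    rw [TensorProduct.smul_tmul]

theorem dle_tensor_ZZ (hb : b ≤ u) {N : ℕ} (h : Dle k (Idz (guv α u v)) N) :
    Dle k (A ⊗[k] ZZ k b) N := by
  refine h.of_surjective (AlgHom.ofLinearMap (tmap hb) ?_ (tmap_mul hb)) (tmap_surjective hb)
  rw [tmap_apply]
  have h1 : ∀ i : Fin b, (1 : Idz (guv α u v)).2.1 (Fin.castLE hb i) = 0 := fun _ => rfl
  simp only [h1, TensorProduct.zero_tmul, Finset.sum_const_zero, add_zero]
  rfl

end tensor

end Pool.Agent.H15.CX
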