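import Pool.Agent.H15.CX.Split

/-!
# Exchange of modules in idealizations
-/

open TensorProduct Module

namespace Pool.Agent.H15.CX

open Pool.Agent.H15.Defect

universe u

variable {k P Y Y' Z Z' Y₁ Y₂ : Type u} [Field k] [CommRing P] [Algebra k P] [CommRing Y]
  [Algebra k Y] [CommRing Y'] [Algebra k Y'] [CommRing Z] [Algebra k Z] [CommRing Z'] [Algebra k Z']
  [CommRing Y₁] [Algebra k Y₁] [CommRing Y₂] [Algebra k Y₂]

/-- The `P`-module `Y` may be exchanged for `Y'` as a summand in idealizations. -/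
def Le (q : P →ₐ[k] Y) (q' : P →ₐ[k] Y') : Prop :=
  ∀ (W : Type u) [CommRing W] [Algebra k W] (w : P →ₐ[k] W) (N : ℕ),
    Dle k (Idz (q.prod w)) N → Dle k (Idz (q'.prod w)) N

theorem Le.refl (q : P →ₐ[k] Y) : Le q q := fun _ _ _ _ _ h => h

theorem Le.trans {q : P →ₐ[k] Y} {q' : P →ₐ[k] Y'} {r : P →ₐ[k] Z} (h : Le q q')
    (h' : Le q' r) : Le q r := fun W _ _ w N hN => h' W w N (h W w N hN)

theorem Le.of_linear {q : P →ₐ[k] Y} {q' : P →ₐ[k] Y'} (g : Y →ₗ[k] Y')
    (hg : Function.Surjective g) (h : ∀ p y, g (q p * y) = q' p * g y) : Le q q' := by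
  intro W _ _ w N hN
  refine hN.of_surjective (Idz.map (AlgHom.id k P) (g.prodMap LinearMap.id) ?_)
    (Idz.map_surjective _ _ _ Function.surjective_id ?_)
  · intro p y
    apply Prod.ext
    · exact h p y.1
    · rfl
  · rintro ⟨y, z⟩
    obtain ⟨x, hx⟩ := hg y
    exact ⟨(x, z), by simp [hx]⟩

theorem SplitData.le (HD : T_DUAL k) {q : P →ₐ[k] Y} {q₁ : P →ₐ[k] Y₁} {q₂ : P →ₐ[k] Y₂}
    (D : SplitData q q₁ q₂) : Le q (q₁.prod q₂) := by
  intro W _ _ w N hN
  let D' : SplitData (q.prod w) (q₁.prod w) q₂ :=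
    { j := D.j.prodMap LinearMap.id
      g := D.g.comp (LinearMap.fst k Y W)
      inj := by
        rintro ⟨a, b⟩ ⟨a', b'⟩ hab
        have h1 : D.j a = D.j a' := congrArg Prod.fst hab
        have h2 : b = b' := congrArg Prod.snd hab
        rw [D.inj h1, h2]
      surj := by
        intro y
        obtain ⟨x, hx⟩ := D.surj y
        exact ⟨(x, 0), hx⟩
      comp := fun y => D.comp y.1
      hj := by
        intro p y
        apply Prod.ext
        · exact D.hj p y.1
        · rfl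
      hg := fun p y => D.hg p y.1 }
  refine (D'.dle HD hN).of_surjective (Idz.map (AlgHom.id k P)
    (((LinearMap.fst k Y₁ W).comp (LinearMap.fst k (Y₁ × W) Y₂)).prod
      (LinearMap.snd k (Y₁ × W) Y₂) |>.prod
        ((LinearMap.snd k Y₁ W).comp (LinearMap.fst k (Y₁ × W) Y₂))) ?_)
    (Idz.map_surjective _ _ _ Function.surjective_id ?_)
  · intro p y
    rfl
  · rintro ⟨⟨y₁, y₂⟩, z⟩
    exact ⟨((y₁, z), y₂), rfl⟩

theorem Le.prod {q : P →ₐ[k] Y} {q' : P →ₐ[k] Y'} {r : P →ₐ[k] Z} {r' : P →ₐ[k] Z'}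
    (h : Le q q') (h' : Le r r') : Le (q.prod r) (q'.prod r') := by
  intro W _ _ w N hN
  have h1 : Dle k (Idz (q.prod (r.prod w))) N := by
    refine hN.of_surjective (Idz.map (AlgHom.id k P) (LinearEquiv.prodAssoc k Y Z W).toLinearMap
      ?_) (Idz.map_surjective _ _ _ Function.surjective_id (LinearEquiv.surjective _))
    intro p y
    rfl
  have h2 := h _ (r.prod w) N h1
  have h3 : Dle k (Idz (r.prod (q'.prod w))) N := by
    refine h2.of_surjective (Idz.map (AlgHom.id k P)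
      (((LinearMap.fst k Z W).comp (LinearMap.snd k Y' (Z × W))).prod
        ((LinearMap.fst k Y' (Z × W)).prod
          ((LinearMap.snd k Z W).comp (LinearMap.snd k Y' (Z × W))))) ?_)
      (Idz.map_surjective _ _ _ Function.surjective_id ?_)
    · intro p y
      rfl
    · rintro ⟨z, y, w⟩
      exact ⟨(y, z, w), rfl⟩
  have h4 := h' _ (q'.prod w) N h3
  refine h4.of_surjective (Idz.map (AlgHom.id k P)
      (((LinearMap.fst k Y' W).comp (LinearMap.snd k Z' (Y' × W))).prod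
        (LinearMap.fst k Z' (Y' × W)) |>.prod
          ((LinearMap.snd k Y' W).comp (LinearMap.snd k Z' (Y' × W)))) ?_)
      (Idz.map_surjective _ _ _ Function.surjective_id ?_)
  · intro p y
    rfl
  · rintro ⟨⟨y, z⟩, w⟩
    exact ⟨(z, y, w), rfl⟩

/-- The diagonal homomorphism to a power. -/
def powH (q : P →ₐ[k] Y) (n : ℕ) : P →ₐ[k] (Fin n → Y) := AlgHom.pi fun _ => q

@[simp] theorem powH_apply (q : P →ₐ[k] Y) (n : ℕ) (p : P) (i : Fin n) :
    powH q n p i = q p := rfl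

theorem powH_succ_le (q : P →ₐ[k] Y) (n : ℕ) : Le (powH q (n + 1)) (q.prod (powH q n)) := by
  refine Le.of_linear ((LinearMap.proj (0 : Fin (n + 1))).prod
    (LinearMap.pi fun i : Fin n => LinearMap.proj i.succ)) ?_ ?_
  · rintro ⟨y, f⟩
    refine ⟨Fin.cons y f, ?_⟩
    rfl
  · intro p y
    rfl

theorem le_powH_succ (q : P →ₐ[k] Y) (n : ℕ) : Le (q.prod (powH q n)) (powH q (n + 1)) := by
  refine Le.of_linear (LinearMap.pi (Fin.cases (LinearMap.fst k Y (Fin n → Y))
    (fun i => (LinearMap.proj i).comp (LinearMap.snd k Y (Fin n → Y))))) ?_ ?_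
  · intro f
    refine ⟨(f 0, fun i => f i.succ), ?_⟩
    funext i
    refine Fin.cases ?_ (fun j => ?_) i <;> rfl
  · intro p y
    funext i
    refine Fin.cases ?_ (fun j => ?_) i <;> rfl

theorem Le.pow {q : P →ₐ[k] Y} {q' : P →ₐ[k] Y'} (h : Le q q') :
    ∀ n : ℕ, Le (powH q n) (powH q' n)
  | 0 => Le.of_linear (0 : (Fin 0 → Y) →ₗ[k] (Fin 0 → Y'))
      (fun y => ⟨0, Subsingleton.elim _ _⟩) (fun _ _ => Subsingleton.elim _ _)
  | n + 1 => ((powH_succ_le q n).trans (h.prod (Le.pow h n))).trans (le_powH_succ q' n)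

/-- Exchange without further summand. -/
theorem Le.dle {q : P →ₐ[k] Y} {q' : P →ₐ[k] Y'} (h : Le q q') {N : ℕ} (hN : Dle k (Idz q) N) :
    Dle k (Idz q') N := by
  have h1 : Dle k (Idz (q.prod (powH (AlgHom.id k P) 0))) N := by
    refine hN.of_surjective (Idz.map (AlgHom.id k P) (LinearMap.id.prod 0) ?_)
      (Idz.map_surjective _ _ _ Function.surjective_id ?_)
    · intro p y
      exact Prod.ext rfl (Subsingleton.elim _ _)
    · rintro ⟨y, f⟩
      exact ⟨y, Prod.ext rfl (Subsingleton.elim _ _)⟩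
  have h2 := h _ _ N h1
  refine h2.of_surjective (Idz.map (AlgHom.id k P) (LinearMap.fst k Y' (Fin 0 → P)) ?_)
      (Idz.map_surjective _ _ _ Function.surjective_id ?_)
  · intro p y
    rfl
  · intro y
    exact ⟨(y, 0), rfl⟩

end Pool.Agent.H15.CX
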