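import Pool.Agent.H15.CX.Loc

/-!
# The step of the recursion: tensor with a cover, restrict to the equalizer, split
-/

open TensorProduct Module

namespace Pool.Agent.H15.CX

open Pool.Agent.H15.Defect

universe u

section tensor

variable {k A N B : Type u} [Field k] [CommRing A] [Algebra k A] [CommRing N] [Algebra k N]
  [CommRing B] [Algebra k B]

/-- Tensoring an idealization. -/
theorem dle_tensor_idz {q : A →ₐ[k] N} {D l : ℕ} (hB : Dle k B D) (hq : Dle k (Idz q) l) :
    Dle k (Idz (Algebra.TensorProduct.map (AlgHom.id k B) q)) (D * l) := by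
  let f : B ⊗[k] (A × N) ≃ₗ[k] (B ⊗[k] A) × (B ⊗[k] N) := TensorProduct.prodRight k k B A N
  let f' : B ⊗[k] (Idz q) →ₗ[k] Idz (Algebra.TensorProduct.map (AlgHom.id k B) q) :=
    f.toLinearMap
  have hf : ∀ (b : B) (a : Idz q), f' (b ⊗ₜ[k] a) = ((b ⊗ₜ[k] a.1, b ⊗ₜ[k] a.2) :
      (B ⊗[k] A) × (B ⊗[k] N)) := fun b a => TensorProduct.prodRight_tmul k k B A N b a
  have hf' : Function.Surjective f' := f.surjective
  refine (hB.tensor hq).of_surjective (Algebra.TensorProduct.algHomOfLinearMapTensorProduct f'
    ?_ ?_) hf'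
  · intro b b' x x'
    rw [hf, hf, hf]
    apply Idz.ext'
    · exact (Algebra.TensorProduct.tmul_mul_tmul b b' x.1 x'.1).symm
    · show (b * b') ⊗ₜ[k] (x * x').2 = (Algebra.TensorProduct.map (AlgHom.id k B) q) (b ⊗ₜ x.1) *
        (b' ⊗ₜ x'.2) + (Algebra.TensorProduct.map (AlgHom.id k B) q) (b' ⊗ₜ x'.1) * (b ⊗ₜ x.2)
      rw [Idz.mul_snd, TensorProduct.tmul_add, Algebra.TensorProduct.map_tmul,
        Algebra.TensorProduct.map_tmul, Algebra.TensorProduct.tmul_mul_tmul,
        Algebra.TensorProduct.tmul_mul_tmul, AlgHom.id_apply, AlgHom.id_apply, mul_comm b' b]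
  · rw [hf]
    apply Idz.ext'
    · rfl
    · exact TensorProduct.tmul_zero _ _

end tensor

section step

variable {k A B : Type u} [Field k] [CommRing A] [Algebra k A] [CommRing B] [Algebra k B]

/-- the homomorphism `A → A^u × k^v` -/
def guv (α : A →ₐ[k] k) (u v : ℕ) : A →ₐ[k] (Fin u → A) × (Fin v → k) :=
  (powH (AlgHom.id k A) u).prod (powH α v)

/-- components of a tensor with a product -/
noncomputable def spread (u v : ℕ) :
    B ⊗[k] ((Fin u → A) × (Fin v → k)) →ₐ[k] (Fin u → B ⊗[k] A) × (Fin v → B ⊗[k] k) :=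
  (AlgHom.pi fun i => Algebra.TensorProduct.map (AlgHom.id k B)
    ((Pi.evalAlgHom k (fun _ : Fin u => A) i).comp (AlgHom.fst k _ _))).prod
  (AlgHom.pi fun i => Algebra.TensorProduct.map (AlgHom.id k B)
    ((Pi.evalAlgHom k (fun _ : Fin v => k) i).comp (AlgHom.snd k _ _)))

theorem spread_surjective (u v : ℕ) : Function.Surjective (spread (k := k) (A := A) (B := B) u v)
    := by
  let e1 := TensorProduct.prodRight k k B (Fin u → A) (Fin v → k)
  let e2 := TensorProduct.piRight k k B (fun _ : Fin u => A)
  let e3 := TensorProduct.piRight k k B (fun _ : Fin v => k)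
  let e := e1.trans (e2.prodCongr e3)
  have h : ∀ t, spread (k := k) (A := A) (B := B) u v t = e t := by
    intro t
    induction t using TensorProduct.induction_on with
    | zero => rw [map_zero, map_zero]
    | add s t hs ht => rw [map_add, map_add, hs, ht]
    | tmul b x =>
      apply Prod.ext
      · funext i
        show b ⊗ₜ[k] x.1 i = (e2 (e1 (b ⊗ₜ x)).1) i
        rw [TensorProduct.prodRight_tmul, TensorProduct.piRight_apply,
          TensorProduct.piRightHom_tmul]
      · funext i
        show b ⊗ₜ[k] x.2 i = (e3 (e1 (b ⊗ₜ x)).2) i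
        rw [TensorProduct.prodRight_tmul, TensorProduct.piRight_apply,
          TensorProduct.piRightHom_tmul]
  intro y
  obtain ⟨x, hx⟩ := e.surjective y
  exact ⟨x, (h x).trans hx⟩

theorem dle_tensor_guv {α : A →ₐ[k] k} {D l u v : ℕ} (hB : Dle k B D)
    (hq : Dle k (Idz (guv α u v)) l) :
    Dle k (Idz ((powH (AlgHom.id k (B ⊗[k] A)) u).prod
      (powH (Algebra.TensorProduct.map (AlgHom.id k B) α) v))) (D * l) := by
  refine (dle_tensor_idz hB hq).of_surjective (Idz.map (AlgHom.id k _)
    (spread (k := k) (A := A) (B := B) u v).toLinearMap ?_)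
    (Idz.map_surjective _ _ _ Function.surjective_id (spread_surjective u v))
  intro p y
  have h1 : (spread (k := k) (A := A) (B := B) u v).comp
      (Algebra.TensorProduct.map (AlgHom.id k B) (guv α u v)) =
      (powH (AlgHom.id k (B ⊗[k] A)) u).prod
      (powH (Algebra.TensorProduct.map (AlgHom.id k B) α) v) := by
    apply Algebra.TensorProduct.ext'
    intro b a
    rfl
  refine (map_mul (spread (k := k) (A := A) (B := B) u v) _ y).trans ?_
  rw [← h1]
  rfl

/-- reindexing -/
def gather (u v D s : ℕ) : ((Fin u → Fin D → A) × (Fin v → A × (Fin s → k))) →ₗ[k]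
    (Fin (D * u + v) → A) × (Fin (s * v) → k) :=
  (LinearMap.pi fun i => Sum.elim
      (fun x => ((LinearMap.proj (R := k) (φ := fun _ : Fin D => A) (finProdFinEquiv.symm x).1).comp
        (LinearMap.proj (R := k) (φ := fun _ : Fin u => Fin D → A) (finProdFinEquiv.symm x).2)).comp
          (LinearMap.fst k _ (Fin v → A × (Fin s → k))))
      (fun j => ((LinearMap.fst k A (Fin s → k)).comp
        (LinearMap.proj (R := k) (φ := fun _ : Fin v => A × (Fin s → k)) j)).comp
          (LinearMap.snd k (Fin u → Fin D → A) _))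
      (finSumFinEquiv.symm i)).prod
  (LinearMap.pi fun i => ((LinearMap.proj (R := k) (φ := fun _ : Fin s => k)
      (finProdFinEquiv.symm i).1).comp ((LinearMap.snd k A (Fin s → k)).comp
        (LinearMap.proj (R := k) (φ := fun _ : Fin v => A × (Fin s → k))
          (finProdFinEquiv.symm i).2))).comp (LinearMap.snd k (Fin u → Fin D → A) _))

theorem gather_inl (u v D s : ℕ) (F : (Fin u → Fin D → A) × (Fin v → A × (Fin s → k)))
    (x : Fin (D * u)) : (gather u v D s F).1 (finSumFinEquiv (Sum.inl x)) =
      F.1 (finProdFinEquiv.symm x).2 (finProdFinEquiv.symm x).1 := by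
  show (Sum.elim _ _ (finSumFinEquiv.symm (finSumFinEquiv (Sum.inl x))) : _ →ₗ[k] A) F = _
  rw [Equiv.symm_apply_apply]
  rfl

theorem gather_inr (u v D s : ℕ) (F : (Fin u → Fin D → A) × (Fin v → A × (Fin s → k)))
    (x : Fin v) : (gather u v D s F).1 (finSumFinEquiv (Sum.inr x)) = (F.2 x).1 := by
  show (Sum.elim _ _ (finSumFinEquiv.symm (finSumFinEquiv (Sum.inr x))) : _ →ₗ[k] A) F = _
  rw [Equiv.symm_apply_apply]
  rfl

theorem gather_surjective (u v D s : ℕ) :
    Function.Surjective (gather (k := k) (A := A) u v D s) := by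
  rintro ⟨X, Y⟩
  refine ⟨(fun a b => X (finSumFinEquiv (Sum.inl (finProdFinEquiv (b, a)))),
    fun j => (X (finSumFinEquiv (Sum.inr j)), fun b => Y (finProdFinEquiv (b, j)))), ?_⟩
  apply Prod.ext
  · funext i
    obtain ⟨x, rfl⟩ := finSumFinEquiv.surjective i
    rcases x with x | x
    · rw [gather_inl]
      show X (finSumFinEquiv (Sum.inl (finProdFinEquiv ((finProdFinEquiv.symm x).1,
        (finProdFinEquiv.symm x).2)))) = _
      rw [Prod.mk.eta, Equiv.apply_symm_apply]
    · rw [gather_inr]
  · funext i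
    show Y (finProdFinEquiv ((finProdFinEquiv.symm i).1, (finProdFinEquiv.symm i).2)) = Y i
    rw [Prod.mk.eta, Equiv.apply_symm_apply]

/-- THE STEP: if `A ⊕ A^u ⊕ k^v` has a cover of length `l` then `A ⊕ A^(Du+v) ⊕ k^(sv)` has one
of length `D l`. -/
theorem step (HD : T_DUAL k) [Module.Finite k B] {α : A →ₐ[k] k} (π : B →ₐ[k] A)
    (hπ : Function.Surjective π) {c D s : ℕ} (hc : RingHom.ker (α.comp π) ^ c = ⊥)
    (hD : finrank k B = D) (hs : finrank k B = finrank k A + s) (hB : Dle k B D) {l u v : ℕ}
    (hq : Dle k (Idz (guv α u v)) l) :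
    Dle k (Idz (guv α (D * u + v) (s * v))) (D * l) := by
  let e1 : B ⊗[k] A →ₐ[k] A := (Algebra.TensorProduct.rid k k A).toAlgHom.comp
    (Algebra.TensorProduct.map π α)
  let e2 : B ⊗[k] A →ₐ[k] A := evL (α.comp π)
  have he1 : ∀ b a, e1 (b ⊗ₜ[k] a) = α a • π b := by
    intro b a
    simp [e1]
  have he2 : ∀ b a, e2 (b ⊗ₜ[k] a) = α (π b) • a := by
    intro b a
    simp [e2]
  let P := AlgHom.equalizer e1 e2
  let ι : P →ₐ[k] B ⊗[k] A := P.val
  let g : P →ₐ[k] A := e2.comp ι
  have hg1 : g = e1.comp ι := by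
    apply AlgHom.ext
    intro p
    exact ((AlgHom.mem_equalizer e1 e2 p.1).mp p.2).symm
  have hgs : Function.Surjective g := by
    intro a
    obtain ⟨b, hb⟩ := hπ a
    have hmem : b ⊗ₜ[k] (1 : A) + (1 : B) ⊗ₜ[k] a - algebraMap k (B ⊗[k] A) (α a) ∈ P := by
      rw [AlgHom.mem_equalizer, map_sub, map_sub, map_add, map_add, he1, he1, he2, he2,
        AlgHom.commutes, AlgHom.commutes, hb, map_one, map_one, one_smul, add_comm, map_one,
        one_smul]
    refine ⟨⟨_, hmem⟩, ?_⟩
    show e2 (b ⊗ₜ[k] (1 : A) + (1 : B) ⊗ₜ[k] a - algebraMap k (B ⊗[k] A) (α a)) = a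
    rw [map_sub, map_add, he2, he2, AlgHom.commutes, hb, map_one, map_one, one_smul,
      Algebra.algebraMap_eq_smul_one, add_sub_cancel_left]
  -- the restriction
  have h1 := dle_tensor_guv hB hq
  have h2 : Dle k (Idz ((powH ι u).prod
      (powH ((Algebra.TensorProduct.map (AlgHom.id k B) α).comp ι) v))) (D * l) := by
    refine h1.of_injective (Idz.map ι LinearMap.id ?_) (Idz.map_injective _ _ _
      Subtype.val_injective Function.injective_id)
    intro p y
    rfl
  -- splitting `B ⊗ A`
  have hc1 : RingHom.ker ((AlgHom.id k k).comp (α.comp π)) ^ c = ⊥ := by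
    rw [AlgHom.id_comp]
    exact hc
  have hα1 : Function.Surjective (α.comp π) := fun r => ⟨algebraMap k B r, by simp⟩
  have hD1 : 1 ≤ D := by
    have hnt : Nontrivial B := (α.comp π).toRingHom.domain_nontrivial
    rw [← hD]
    exact Module.finrank_pos
  have h3 := split_local HD (A' := A) (AlgHom.id k k) (D - 1) B (α.comp π) hα1 c hc1
    (by rw [hD, Module.finrank_self]; omega) ι
  have h4 : Le ι (powH g D) := by
    refine h3.trans ?_
    have h5 : Le ((Algebra.TensorProduct.map (α.comp π) (AlgHom.id k A)).comp ι) g := by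
      refine Le.of_linear (TensorProduct.lid k A).toLinearMap (LinearEquiv.surjective _) ?_
      intro p y
      exact map_mul (Algebra.TensorProduct.lid k A) _ y
    obtain ⟨d, hd⟩ := Nat.exists_eq_add_of_le' hD1
    subst hd
    exact (h5.prod (Le.refl _)).trans (le_powH_succ _ _)
  -- splitting `B`
  have h6 := split_local HD (A' := k) α s B π hπ c hc hs
    ((Algebra.TensorProduct.map (AlgHom.id k B) α).comp ι)
  have h7 : Le ((Algebra.TensorProduct.map (AlgHom.id k B) α).comp ι)
      (g.prod (powH (α.comp g) s)) := by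
    refine h6.trans (Le.prod ?_ ?_)
    · refine Le.of_linear (Algebra.TensorProduct.rid k k A).toLinearEquiv.toLinearMap
        (LinearEquiv.surjective _) ?_
      intro p y
      have h8 : (Algebra.TensorProduct.map π (AlgHom.id k k)).comp
          (Algebra.TensorProduct.map (AlgHom.id k B) α) = Algebra.TensorProduct.map π α := by
        apply Algebra.TensorProduct.ext'
        intro b a
        rfl
      have h9 : (Algebra.TensorProduct.rid k k A) (((Algebra.TensorProduct.map π
          (AlgHom.id k k)).comp ((Algebra.TensorProduct.map (AlgHom.id k B) α).comp ι)) p) =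
          g p := by
        rw [hg1, ← AlgHom.comp_assoc, h8]
        rfl
      refine (map_mul (Algebra.TensorProduct.rid k k A) _ y).trans ?_
      rw [h9]
      rfl
    · have h10 : (evL (α.comp π)).comp ((Algebra.TensorProduct.map (AlgHom.id k B) α).comp ι) =
          α.comp g := by
        have h11 : (evL (α.comp π)).comp (Algebra.TensorProduct.map (AlgHom.id k B) α) =
            α.comp e2 := by
          apply Algebra.TensorProduct.ext'
          intro b a
          rw [AlgHom.comp_apply, AlgHom.comp_apply, Algebra.TensorProduct.map_tmul, evL_tmul, he2,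
            map_smul]
          rfl
        rw [← AlgHom.comp_assoc, h11]
        rfl
      rw [h10]
      exact Le.refl _
  have h12 := ((h4.pow u).prod (h7.pow v)).dle h2
  refine h12.of_surjective (Idz.map g (gather u v D s) ?_)
    (Idz.map_surjective _ _ _ hgs (gather_surjective u v D s))
  intro p y
  apply Prod.ext
  · funext i
    obtain ⟨x, rfl⟩ := finSumFinEquiv.surjective i
    rcases x with x | x
    · refine (gather_inl u v D s _ x).trans ?_
      show _ = g p * (gather u v D s y).1 (finSumFinEquiv (Sum.inl x))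
      rw [gather_inl]
      rfl
    · refine (gather_inr u v D s _ x).trans ?_
      show _ = g p * (gather u v D s y).1 (finSumFinEquiv (Sum.inr x))
      rw [gather_inr]
      rfl
  · rfl

end step

end Pool.Agent.H15.CX
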